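import Pool.Agent.H25WP.Kcount

set_option autoImplicit false

/-! Values with a small prime factor. -/

namespace Pool.Agent.H25WP

open Finset Real Polynomial Pool.Agent.TH869.EVF Pool.Agent.W57.SW

theorem case_a (f : ℤ[X])
    (hf : ∀ (c : ℚ) (g : ℚ[X]), f.map (Int.castRingHom ℚ) ≠ C c * g ^ 2)
    (A δ : ℝ) (hA : 1 < A) (hδ : 0 < δ) : ∃ C : ℝ, 1 ≤ C ∧ ∀ (x M P : ℕ), 1 ≤ M → P ≤ M →
      2 * M ≤ x → (|f.leadingCoeff| : ℝ) ≤ (log x) ^ A → ∀ E : Finset ℕ, E ⊆ Icc 1 M →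
      (∀ m ∈ E, ∃ p k : ℕ, p.Prime ∧ p ≤ P ∧ (log x) ^ A < p ∧
        (f.eval (m : ℤ)).natAbs = p * k ∧ k ∈ Dq A x) →
      (E.card : ℝ) ≤ C * (M : ℝ) ^ ((1 + 1 / A + δ) / 2) * (P : ℝ) ^ (1 + δ - (1 + 1 / A + δ) / 2) := by
  classical
  obtain ⟨C1, hC1, hs⟩ := sieve_poly f hf A δ hA hδ
  obtain ⟨θ, hθ⟩ : ∃ θ : ℝ, θ = (1 + 1 / A + δ) / 2 := ⟨_, rfl⟩
  rw [← hθ] at hs ⊢
  have hA0 : 0 < A := by linarith
  have hAi : 1 / A < 1 := by rw [div_lt_one hA0]; exact hA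
  have hAi0 : 0 < 1 / A := by positivity
  have hθ0 : 0 < θ := by rw [hθ]; linarith
  have hθ1 : 0 ≤ 1 + δ - θ := by rw [hθ]; linarith
  have hlc0 : f.leadingCoeff ≠ 0 := by
    intro h
    rw [leadingCoeff_eq_zero] at h
    exact hf 0 0 (by rw [h]; simp)
  have hsumm : Summable fun k : ℕ => (k : ℝ) ^ (-(1 + δ)) := Real.summable_nat_rpow.mpr (by linarith)
  obtain ⟨Z, hZ⟩ : ∃ Z : ℝ, Z = ∑' k : ℕ, (k : ℝ) ^ (-(1 + δ)) := ⟨_, rfl⟩
  have hZ0 : 0 ≤ Z := by rw [hZ]; exact tsum_nonneg fun k => by positivity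
  refine ⟨f.natDegree * C1 * 2 ^ θ * Z + 1, by
    have : 0 ≤ f.natDegree * C1 * 2 ^ θ * Z := by positivity
    linarith, ?_⟩
  intro x M P hM hPM hMx hlc E hE hE'
  have hM1 : (1 : ℝ) ≤ M := by exact_mod_cast hM
  obtain ⟨PP, hPP⟩ : ∃ PP : Finset ℕ, PP = (Icc 1 P).filter (fun p : ℕ => p.Prime ∧ (log x) ^ A < p) :=
    ⟨_, rfl⟩
  obtain ⟨F, hF⟩ : ∃ F : ℕ → ℕ → Finset ℕ, ∀ p r, F p r = (Icc 1 M).filter (fun m : ℕ =>
    m % p = r ∧ ∃ k ∈ Dq A x, (f.eval (m : ℤ)).natAbs = p * k) := ⟨_, fun _ _ => rfl⟩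
  have hcov : E ⊆ PP.biUnion (fun p =>
      ((range p).filter (fun r : ℕ => (p : ℤ) ∣ f.eval (r : ℤ))).biUnion (fun r => F p r)) := by
    intro m hm
    obtain ⟨p, k, hp, hpP, hpx, hmk, hk⟩ := hE' m hm
    rw [mem_biUnion]
    refine ⟨p, ?_, ?_⟩
    · rw [hPP, mem_filter, mem_Icc]
      exact ⟨⟨hp.one_lt.le, hpP⟩, hp, hpx⟩
    rw [mem_biUnion]
    refine ⟨m % p, ?_, ?_⟩
    · rw [mem_filter, mem_range]
      refine ⟨Nat.mod_lt _ hp.pos, ?_⟩
      have h4 : (p : ℤ) ∣ f.eval (m : ℤ) := by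
        exact Int.natCast_dvd.mpr ⟨k, hmk⟩
      have h5 : (p : ℤ) ∣ ((m % p : ℕ) : ℤ) - m := by
        have h6 : (m : ℤ) = ((m % p : ℕ) : ℤ) + p * ((m / p : ℕ) : ℤ) := by
          exact_mod_cast (Nat.mod_add_div m p).symm
        exact ⟨-((m / p : ℕ) : ℤ), by linarith⟩
      have h7 := h5.trans (sub_dvd_eval_sub ((m % p : ℕ) : ℤ) (m : ℤ) f)
      have h8 := dvd_add h7 h4
      rwa [sub_add_cancel] at h8
    · rw [hF, mem_filter]
      exact ⟨hE hm, rfl, k, hk, hmk⟩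
  have hFc : ∀ p ∈ PP, ∀ r ∈ (range p).filter (fun r : ℕ => (p : ℤ) ∣ f.eval (r : ℤ)),
      ((F p r).card : ℝ) ≤ C1 * (2 ^ θ * (M : ℝ) ^ θ * (P : ℝ) ^ (1 + δ - θ) * (p : ℝ) ^ (-(1 + δ))) := by
    intro p hp r _
    rw [hPP, mem_filter, mem_Icc] at hp
    obtain ⟨⟨hp1, hpP⟩, hpp, hpx⟩ := hp
    have hp0 : (0 : ℝ) < p := by exact_mod_cast hpp.pos
    have h1 : ((F p r).image (fun m => m / p + 1)).card = (F p r).card := by
      apply card_image_of_injOn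
      intro a ha b hb hab
      rw [mem_coe, hF, mem_filter] at ha hb
      simp only at hab
      rw [← Nat.mod_add_div a p, ← Nat.mod_add_div b p, ha.2.1, hb.2.1]
      have : a / p = b / p := by omega
      rw [this]
    have hpM : p ≤ M := hpP.trans hPM
    have h2 := hs x (M / p + 1) (Nat.le_add_left 1 _)
      (by have := Nat.div_le_self M p; omega) p
      (by
        intro ℓ hℓ hd
        rw [mem_opr] at hℓ
        have h3 := (Nat.prime_dvd_prime_iff_eq hℓ.1 hpp).mp hd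
        have h4 : (ℓ : ℝ) ≤ (log (x : ℝ)) ^ A :=
          le_trans (by exact_mod_cast hℓ.2.1) (Nat.floor_le (rpow_nonneg (log_natCast_nonneg x) _))
        rw [h3] at h4
        linarith) ((r : ℤ) - p) ((F p r).image (fun m => m / p + 1))
      (by
        intro t ht
        rw [mem_image] at ht
        obtain ⟨m, hm, rfl⟩ := ht
        rw [hF, mem_filter, mem_Icc] at hm
        rw [mem_Icc]
        have := Nat.div_le_div_right (c := p) hm.1.2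
        exact ⟨Nat.le_add_left 1 _, Nat.add_le_add_right this 1⟩)
      (by
        intro t ht
        rw [mem_image] at ht
        obtain ⟨m, hm, rfl⟩ := ht
        rw [hF, mem_filter, mem_Icc] at hm
        obtain ⟨_, hmr, k, hk, hmk⟩ := hm
        rw [mem_Dq] at hk
        refine ⟨k, hk.2.1, hk.2.2.2, ?_⟩
        have e : (r : ℤ) - p + (p : ℤ) * ((m / p + 1 : ℕ) : ℤ) = m := by
          have h6 : (m : ℤ) = ((m % p : ℕ) : ℤ) + p * ((m / p : ℕ) : ℤ) := by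
            exact_mod_cast (Nat.mod_add_div m p).symm
          rw [hmr] at h6
          push_cast at h6 ⊢
          linarith
        rw [e]
        exact hmk)
    rw [h1] at h2
    refine h2.trans ?_
    apply mul_le_mul_of_nonneg_left _ (by linarith)
    have h3 : ((M / p + 1 : ℕ) : ℝ) ≤ 2 * M / p := by
      have h4 : ((M / p : ℕ) : ℝ) ≤ (M : ℝ) / p := Nat.cast_div_le
      have h5 : (1 : ℝ) ≤ (M : ℝ) / p := by
        rw [one_le_div hp0]; exact_mod_cast hpM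
      push_cast
      have : (2 : ℝ) * M / p = M / p + M / p := by ring
      linarith
    calc (((M / p + 1 : ℕ) : ℝ)) ^ θ ≤ (2 * M / p : ℝ) ^ θ := rpow_le_rpow (Nat.cast_nonneg _) h3 hθ0.le
      _ = 2 ^ θ * (M : ℝ) ^ θ * (p : ℝ) ^ (-θ) := by
          rw [div_rpow (by positivity) hp0.le, mul_rpow (by norm_num) (by linarith), rpow_neg hp0.le]
          rfl
      _ = 2 ^ θ * (M : ℝ) ^ θ * ((p : ℝ) ^ (1 + δ - θ) * (p : ℝ) ^ (-(1 + δ))) := by
          rw [← rpow_add hp0]; congr 2; ring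
      _ ≤ 2 ^ θ * (M : ℝ) ^ θ * ((P : ℝ) ^ (1 + δ - θ) * (p : ℝ) ^ (-(1 + δ))) := by
          apply mul_le_mul_of_nonneg_left _ (by positivity)
          apply mul_le_mul_of_nonneg_right _ (by positivity)
          exact rpow_le_rpow hp0.le (by exact_mod_cast hpP) hθ1
      _ = _ := by ring
  have hroots : ∀ p ∈ PP, ((range p).filter (fun r : ℕ => (p : ℤ) ∣ f.eval (r : ℤ))).card ≤
      f.natDegree := by
    intro p hp
    rw [hPP, mem_filter, mem_Icc] at hp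
    obtain ⟨⟨hp1, hpP⟩, hpp, hpx⟩ := hp
    apply roots_le f p hpp
    intro h
    have h1 := Int.le_of_dvd (abs_pos.mpr hlc0) ((dvd_abs _ _).mpr h)
    have h2 : (p : ℝ) ≤ |(f.leadingCoeff : ℝ)| := by exact_mod_cast h1
    linarith
  have hcard : (E.card : ℝ) ≤ ∑ p ∈ PP, ∑ r ∈ (range p).filter (fun r : ℕ => (p : ℤ) ∣ f.eval (r : ℤ)),
      ((F p r).card : ℝ) := by
    have h1 := (card_le_card hcov).trans card_biUnion_le
    have h2 : ∑ p ∈ PP, (((range p).filter (fun r : ℕ => (p : ℤ) ∣ f.eval (r : ℤ))).biUnion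
        (fun r => F p r)).card ≤ ∑ p ∈ PP, ∑ r ∈ (range p).filter
          (fun r : ℕ => (p : ℤ) ∣ f.eval (r : ℤ)), (F p r).card :=
      sum_le_sum fun p _ => card_biUnion_le
    exact_mod_cast h1.trans h2
  have hterm : ∀ p ∈ PP, ∑ r ∈ (range p).filter (fun r : ℕ => (p : ℤ) ∣ f.eval (r : ℤ)),
      ((F p r).card : ℝ) ≤ f.natDegree * (C1 * (2 ^ θ * (M : ℝ) ^ θ * (P : ℝ) ^ (1 + δ - θ) *
        (p : ℝ) ^ (-(1 + δ)))) := by
    intro p hp
    refine (sum_le_sum (hFc p hp)).trans ?_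
    rw [sum_const, nsmul_eq_mul]
    apply mul_le_mul_of_nonneg_right _ (by positivity)
    exact_mod_cast hroots p hp
  have hZs : ∑ p ∈ PP, (p : ℝ) ^ (-(1 + δ)) ≤ Z := by
    rw [hZ]
    exact hsumm.sum_le_tsum _ fun k _ => by positivity
  calc (E.card : ℝ) ≤ _ := hcard
    _ ≤ ∑ p ∈ PP, f.natDegree * (C1 * (2 ^ θ * (M : ℝ) ^ θ * (P : ℝ) ^ (1 + δ - θ) *
        (p : ℝ) ^ (-(1 + δ)))) := sum_le_sum hterm
    _ = f.natDegree * C1 * 2 ^ θ * (M : ℝ) ^ θ * (P : ℝ) ^ (1 + δ - θ) *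
        ∑ p ∈ PP, (p : ℝ) ^ (-(1 + δ)) := by
        rw [mul_sum]; refine sum_congr rfl fun p _ => ?_; ring
    _ ≤ f.natDegree * C1 * 2 ^ θ * (M : ℝ) ^ θ * (P : ℝ) ^ (1 + δ - θ) * Z :=
        mul_le_mul_of_nonneg_left hZs (by positivity)
    _ ≤ _ := by
        have : 0 ≤ (M : ℝ) ^ θ * (P : ℝ) ^ (1 + δ - θ) := by positivity
        nlinarith

end Pool.Agent.H25WP
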