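import Pool.Agent.H25WP.CaseA

set_option autoImplicit false

/-! Values with a large prime factor: the cofactor is in a sparse set. -/

namespace Pool.Agent.H25WP

open Finset Real Polynomial Pool.Agent.TH869.EVF Pool.Agent.W57.SW

theorem case_b (f : ℤ[X]) (A δ : ℝ) (hA : 1 < A) (hδ : 0 < δ) (hσ1 : 1 / A + 2 * δ ≤ 1) :
    ∃ C : ℝ, 1 ≤ C ∧ ∀ (x M k1 : ℕ) (k0 : ℝ), 1 ≤ k1 → k1 ≤ x → 0 < k0 →
      ∀ E : Finset ℕ, E ⊆ Icc 1 M →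
      (∀ m ∈ E, ∃ k : ℕ, k ∈ Dq A x ∧ k0 ≤ k ∧ k ≤ k1 ∧
        (∀ p : ℕ, p.Prime → p ∣ k → ¬ (p : ℤ) ∣ f.leadingCoeff) ∧ (k : ℤ) ∣ f.eval (m : ℤ)) →
      (E.card : ℝ) ≤ C * (x : ℝ) ^ δ * ((k1 : ℝ) ^ (1 / A + δ) + M * k0 ^ (-(1 - (1 / A + 2 * δ)))) := by
  classical
  obtain ⟨K, hK, hrank⟩ := Dq_rank A δ hA hδ
  obtain ⟨Cω, hCω, hω⟩ := pow_omega f.natDegree δ hδ
  obtain ⟨α, hα⟩ : ∃ α : ℝ, α = 1 / A + δ := ⟨_, rfl⟩
  obtain ⟨σ, hσ⟩ : ∃ σ : ℝ, σ = 1 / A + 2 * δ := ⟨_, rfl⟩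
  rw [← hα] at hrank ⊢
  rw [← hσ] at hσ1 ⊢
  have hA0 : 0 < A := by linarith
  have hAi0 : 0 < 1 / A := by positivity
  have hα0 : 0 < α := by rw [hα]; positivity
  have hασ : α < σ := by rw [hα, hσ]; linarith
  obtain ⟨R, hR⟩ : ∃ R : ℝ, R = K ^ (σ / α) * ∑' k : ℕ, (k : ℝ) ^ (-(σ / α)) := ⟨_, rfl⟩
  have hR0 : 0 ≤ R := by
    rw [hR]
    exact mul_nonneg (by positivity) (tsum_nonneg fun k => by positivity)
  refine ⟨Cω * (K + R + 1), by nlinarith, ?_⟩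
  intro x M k1 k0 hk1 hk1x hk0 E hE hE'
  obtain ⟨S, hS⟩ : ∃ S : Finset ℕ, S = (Dq A x).filter (fun k : ℕ => k0 ≤ k ∧ k ≤ k1 ∧
    ∀ p : ℕ, p.Prime → p ∣ k → ¬ (p : ℤ) ∣ f.leadingCoeff) := ⟨_, rfl⟩
  have hcov : E ⊆ S.biUnion (fun k => (Icc 1 M).filter (fun m : ℕ => (k : ℤ) ∣ f.eval (m : ℤ))) := by
    intro m hm
    obtain ⟨k, h1, h2, h3, h4, h5⟩ := hE' m hm
    rw [mem_biUnion]
    refine ⟨k, ?_, mem_filter.mpr ⟨hE hm, h5⟩⟩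
    rw [hS, mem_filter]
    exact ⟨h1, h2, h3, h4⟩
  have hcard : (E.card : ℝ) ≤ ∑ k ∈ S,
      (((Icc 1 M).filter (fun m : ℕ => (k : ℤ) ∣ f.eval (m : ℤ))).card : ℝ) := by
    exact_mod_cast (card_le_card hcov).trans card_biUnion_le
  have hSk : ∀ k ∈ S, 1 ≤ k ∧ k ≤ x ∧ Squarefree k ∧ k ∈ Dq A x ∧ k0 ≤ k ∧ k ≤ k1 ∧
      ∀ p : ℕ, p.Prime → p ∣ k → ¬ (p : ℤ) ∣ f.leadingCoeff := by
    intro k hk
    rw [hS, mem_filter] at hk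
    have h1 := mem_Dq.mp hk.1
    exact ⟨h1.1.1, h1.1.2, h1.2.2.1, hk.1, hk.2.1, hk.2.2.1, hk.2.2.2⟩
  have hterm : ∀ k ∈ S, (((Icc 1 M).filter (fun m : ℕ => (k : ℤ) ∣ f.eval (m : ℤ))).card : ℝ) ≤
      Cω * (x : ℝ) ^ δ * (M * (k0 ^ (-(1 - σ)) * (k : ℝ) ^ (-σ)) + 1) := by
    intro k hk
    obtain ⟨h1, h2, h3, h4, h5, h6, h7⟩ := hSk k hk
    have hkR : (0 : ℝ) < k := by exact_mod_cast h1
    have h8 := count_div f k M h3 h7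
    have h9 : (((Icc 1 M).filter (fun m : ℕ => (k : ℤ) ∣ f.eval (m : ℤ))).card : ℝ) ≤
        ((f.natDegree ^ k.primeFactors.card : ℕ) : ℝ) * ((M / k : ℕ) + 1) := by exact_mod_cast h8
    refine h9.trans ?_
    have h10 : ((f.natDegree ^ k.primeFactors.card : ℕ) : ℝ) ≤ Cω * (x : ℝ) ^ δ := by
      refine (hω k h1).trans ?_
      apply mul_le_mul_of_nonneg_left _ (by linarith)
      exact rpow_le_rpow hkR.le (by exact_mod_cast h2) hδ.le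
    apply mul_le_mul h10 _ (by positivity) (by positivity)
    have h11 : ((M / k : ℕ) : ℝ) ≤ (M : ℝ) / k := Nat.cast_div_le
    have h12 : (M : ℝ) / k ≤ M * (k0 ^ (-(1 - σ)) * (k : ℝ) ^ (-σ)) := by
      rw [div_eq_mul_inv]
      apply mul_le_mul_of_nonneg_left _ (Nat.cast_nonneg _)
      calc ((k : ℝ))⁻¹ = (k : ℝ) ^ (-(1 - σ)) * (k : ℝ) ^ (-σ) := by
            rw [← rpow_add hkR, ← rpow_neg_one]; congr 1; ring
        _ ≤ k0 ^ (-(1 - σ)) * (k : ℝ) ^ (-σ) := by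
            apply mul_le_mul_of_nonneg_right _ (by positivity)
            exact rpow_le_rpow_of_nonpos hk0 h5 (by linarith)
    linarith
  have hScard : (S.card : ℝ) ≤ K * (k1 : ℝ) ^ α := by
    refine le_trans ?_ (hrank x k1 hk1 hk1x)
    have : S ⊆ (Dq A x).filter (fun m => m ≤ k1) := by
      intro k hk
      obtain ⟨h1, h2, h3, h4, h5, h6, h7⟩ := hSk k hk
      exact mem_filter.mpr ⟨h4, h6⟩
    exact_mod_cast card_le_card this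
  have hsum : ∑ k ∈ S, (k : ℝ) ^ (-σ) ≤ R := by
    have h1 : ∑ m ∈ Dq A x, (m : ℝ) ^ (-σ) ≤ R := by
      rw [hR]
      apply rank_sum (Dq A x) K α σ hK hα0 hασ
      · intro q hq; exact (mem_Dq.mp hq).1.1
      · intro q hq
        exact hrank x q (mem_Dq.mp hq).1.1 (mem_Dq.mp hq).1.2
    refine le_trans ?_ h1
    apply sum_le_sum_of_subset_of_nonneg
    · rw [hS]; exact filter_subset _ _
    · intro k _ _; positivity
  have hxp : 0 ≤ (x : ℝ) ^ δ := by positivity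
  have hk0p : 0 ≤ k0 ^ (-(1 - σ)) := by positivity
  have hk1p : 0 ≤ (k1 : ℝ) ^ α := by positivity
  calc (E.card : ℝ) ≤ _ := hcard
    _ ≤ ∑ k ∈ S, Cω * (x : ℝ) ^ δ * (M * (k0 ^ (-(1 - σ)) * (k : ℝ) ^ (-σ)) + 1) := sum_le_sum hterm
    _ = Cω * (x : ℝ) ^ δ * (M * k0 ^ (-(1 - σ)) * (∑ k ∈ S, (k : ℝ) ^ (-σ)) + S.card) := by
        rw [← mul_sum, sum_add_distrib, sum_const, nsmul_eq_mul, mul_one, mul_sum]
        congr 2
        refine sum_congr rfl fun k _ => ?_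
        ring
    _ ≤ Cω * (x : ℝ) ^ δ * (M * k0 ^ (-(1 - σ)) * R + K * (k1 : ℝ) ^ α) := by
        apply mul_le_mul_of_nonneg_left _ (by positivity)
        have := mul_le_mul_of_nonneg_left hsum (by positivity : 0 ≤ (M : ℝ) * k0 ^ (-(1 - σ)))
        linarith
    _ ≤ Cω * (x : ℝ) ^ δ * ((K + R + 1) * ((k1 : ℝ) ^ α + M * k0 ^ (-(1 - σ)))) := by
        apply mul_le_mul_of_nonneg_left _ (by positivity)
        have h1 : 0 ≤ (M : ℝ) * k0 ^ (-(1 - σ)) := by positivity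
        nlinarith
    _ = _ := by ring

end Pool.Agent.H25WP
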