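import Pool.Agent.H25WP.Poly

set_option autoImplicit false

/-! Counting the values of a polynomial divisible by a squarefree number. -/

namespace Pool.Agent.H25WP

open Finset Real Polynomial Pool.Agent.TH869.EVF Pool.Agent.W57.SW

lemma roots_le (f : ℤ[X]) (p : ℕ) (hp : p.Prime) (hlc : ¬ (p : ℤ) ∣ f.leadingCoeff) :
    ((range p).filter (fun r : ℕ => (p : ℤ) ∣ f.eval (r : ℤ))).card ≤ f.natDegree := by
  classical
  have : Fact p.Prime := ⟨hp⟩
  set g := f.map (Int.castRingHom (ZMod p)) with hg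
  have hlc' : (Int.castRingHom (ZMod p)) f.leadingCoeff ≠ 0 := by
    rw [eq_intCast, Ne, ZMod.intCast_zmod_eq_zero_iff_dvd]
    exact hlc
  have hg0 : g ≠ 0 := by
    intro h
    have h1 := congrArg (fun q : (ZMod p)[X] => q.coeff f.natDegree) h
    simp only [hg, coeff_map, coeff_zero] at h1
    exact hlc' h1
  have h1 : ((range p).filter (fun r : ℕ => (p : ℤ) ∣ f.eval (r : ℤ))).card ≤ g.roots.toFinset.card := by
    apply card_le_card_of_injOn (fun r : ℕ => (r : ZMod p))
    · intro r hr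
      rw [mem_coe, mem_filter, mem_range] at hr
      rw [mem_coe, Multiset.mem_toFinset, mem_roots hg0, IsRoot.def, hg]
      have h2 : ((f.eval (r : ℤ) : ℤ) : ZMod p) = 0 := (ZMod.intCast_zmod_eq_zero_iff_dvd _ _).2 hr.2
      have h3 := Polynomial.eval_natCast_map (Int.castRingHom (ZMod p)) f r
      rw [eq_intCast, h2] at h3
      exact h3
    · intro a ha b hb hab
      rw [mem_coe, mem_filter, mem_range] at ha hb
      have h2 := congrArg ZMod.val hab
      simp only at h2
      rwa [ZMod.val_cast_of_lt ha.1, ZMod.val_cast_of_lt hb.1] at h2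
  refine h1.trans (le_trans (Multiset.toFinset_card_le _) ?_)
  exact (card_roots' g).trans natDegree_map_le

lemma roots_sqf (f : ℤ[X]) (k : ℕ) (hk : Squarefree k)
    (hlc : ∀ p : ℕ, p.Prime → p ∣ k → ¬ (p : ℤ) ∣ f.leadingCoeff) :
    ((range k).filter (fun r : ℕ => (k : ℤ) ∣ f.eval (r : ℤ))).card ≤
      f.natDegree ^ k.primeFactors.card := by
  classical
  have hk0 : k ≠ 0 := hk.ne_zero
  have hpr : ∀ p ∈ k.primeFactors, p.Prime ∧ p ∣ k := fun p hp =>
    ⟨Nat.prime_of_mem_primeFactors hp, Nat.dvd_of_mem_primeFactors hp⟩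
  have h1 : ((range k).filter (fun r : ℕ => (k : ℤ) ∣ f.eval (r : ℤ))).card ≤
      (k.primeFactors.pi (fun p => (range p).filter (fun r : ℕ => (p : ℤ) ∣ f.eval (r : ℤ)))).card := by
    apply card_le_card_of_injOn (fun r : ℕ => fun p _ => r % p)
    · intro r hr
      rw [mem_coe, mem_filter, mem_range] at hr
      rw [mem_coe, mem_pi]
      intro p hp
      obtain ⟨h2, h3⟩ := hpr p hp
      rw [mem_filter, mem_range]
      refine ⟨Nat.mod_lt _ h2.pos, ?_⟩
      have h4 : (p : ℤ) ∣ f.eval (r : ℤ) := dvd_trans (by exact_mod_cast h3) hr.2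
      have h5 : (p : ℤ) ∣ ((r % p : ℕ) : ℤ) - r := by
        have h6 : (r : ℤ) = ((r % p : ℕ) : ℤ) + p * ((r / p : ℕ) : ℤ) := by
          exact_mod_cast (Nat.mod_add_div r p).symm
        exact ⟨-((r / p : ℕ) : ℤ), by linarith⟩
      have h7 := h5.trans (sub_dvd_eval_sub ((r % p : ℕ) : ℤ) (r : ℤ) f)
      have h8 := dvd_add h7 h4
      rwa [sub_add_cancel] at h8
    · intro a ha b hb hab
      rw [mem_coe, mem_filter, mem_range] at ha hb
      have h2 : ∀ p ∈ k.primeFactors, a ≡ b [MOD p] := by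
        intro p hp
        have := congrFun (congrFun hab p) hp
        exact this
      have h3 : a ≡ b [MOD k] := by
        have h4 : (k : ℤ) ∣ (b : ℤ) - a := by
          have h5 : ((∏ p ∈ k.primeFactors, p : ℕ) : ℤ) ∣ (b : ℤ) - a := by
            rw [Nat.cast_prod]
            apply Finset.prod_dvd_of_coprime
            · intro p hp q hq hpq
              have := (Nat.coprime_primes (hpr p hp).1 (hpr q hq).1).mpr hpq
              exact Nat.isCoprime_iff_coprime.mpr this
            · intro p hp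
              exact (Nat.modEq_iff_dvd).mp (h2 p hp)
          rwa [Nat.prod_primeFactors_of_squarefree hk] at h5
        exact (Nat.modEq_iff_dvd).mpr h4
      exact Nat.ModEq.eq_of_lt_of_lt h3 ha.1 hb.1
  refine h1.trans ?_
  rw [card_pi, ← prod_const]
  exact prod_le_prod' fun p hp => roots_le f p (hpr p hp).1 (hlc p (hpr p hp).1 (hpr p hp).2)

lemma class_count (M k r : ℕ) : ((Icc 1 M).filter (fun m => m % k = r)).card ≤ M / k + 1 := by
  have h1 : ((Icc 1 M).filter (fun m => m % k = r)).card ≤ (range (M / k + 1)).card := by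
    apply card_le_card_of_injOn (fun m => m / k)
    · intro m hm
      rw [mem_coe, mem_filter, mem_Icc] at hm
      rw [mem_coe, mem_range, Nat.lt_succ_iff]
      exact Nat.div_le_div_right hm.1.2
    · intro a ha b hb hab
      rw [mem_coe, mem_filter, mem_Icc] at ha hb
      simp only at hab
      rw [← Nat.mod_add_div a k, ← Nat.mod_add_div b k, hab, ha.2, hb.2]
  rwa [card_range] at h1

lemma count_div (f : ℤ[X]) (k M : ℕ) (hk : Squarefree k)
    (hlc : ∀ p : ℕ, p.Prime → p ∣ k → ¬ (p : ℤ) ∣ f.leadingCoeff) :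
    ((Icc 1 M).filter (fun m : ℕ => (k : ℤ) ∣ f.eval (m : ℤ))).card ≤
      f.natDegree ^ k.primeFactors.card * (M / k + 1) := by
  classical
  have hk0 : 0 < k := Nat.pos_of_ne_zero hk.ne_zero
  have h1 : (Icc 1 M).filter (fun m : ℕ => (k : ℤ) ∣ f.eval (m : ℤ)) ⊆
      ((range k).filter (fun r : ℕ => (k : ℤ) ∣ f.eval (r : ℤ))).biUnion
        (fun r => (Icc 1 M).filter (fun m => m % k = r)) := by
    intro m hm
    rw [mem_filter] at hm
    rw [mem_biUnion]
    refine ⟨m % k, ?_, mem_filter.mpr ⟨hm.1, rfl⟩⟩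
    rw [mem_filter, mem_range]
    refine ⟨Nat.mod_lt _ hk0, ?_⟩
    have h5 : (k : ℤ) ∣ ((m % k : ℕ) : ℤ) - m := by
      have h6 : (m : ℤ) = ((m % k : ℕ) : ℤ) + k * ((m / k : ℕ) : ℤ) := by
        exact_mod_cast (Nat.mod_add_div m k).symm
      exact ⟨-((m / k : ℕ) : ℤ), by linarith⟩
    have h7 := h5.trans (sub_dvd_eval_sub ((m % k : ℕ) : ℤ) (m : ℤ) f)
    have h8 := dvd_add h7 hm.2
    rwa [sub_add_cancel] at h8
  refine (card_le_card h1).trans (card_biUnion_le.trans ?_)
  calc ∑ r ∈ (range k).filter (fun r : ℕ => (k : ℤ) ∣ f.eval (r : ℤ)),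
        ((Icc 1 M).filter (fun m => m % k = r)).card
      ≤ ∑ r ∈ (range k).filter (fun r : ℕ => (k : ℤ) ∣ f.eval (r : ℤ)), (M / k + 1) :=
        sum_le_sum fun r _ => class_count M k r
    _ = ((range k).filter (fun r : ℕ => (k : ℤ) ∣ f.eval (r : ℤ))).card * (M / k + 1) := by
        rw [sum_const, smul_eq_mul]
    _ ≤ _ := Nat.mul_le_mul_right _ (roots_sqf f k hk hlc)

lemma pow_omega (d : ℕ) (δ : ℝ) (hδ : 0 < δ) : ∃ C : ℝ, 1 ≤ C ∧ ∀ k : ℕ, 1 ≤ k →
    ((d ^ k.primeFactors.card : ℕ) : ℝ) ≤ C * (k : ℝ) ^ δ := by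
  obtain ⟨C, hC, h⟩ := Helper112.divisor_bound (δ / (d + 1)) (by positivity)
  refine ⟨(max C 1) ^ (d + 1), one_le_pow₀ (le_max_right _ _), ?_⟩
  intro k hk
  have h2 : 2 ^ k.primeFactors.card ≤ k.divisors.card := by
    have h3 : (k.primeFactors.powerset.image (fun s => ∏ p ∈ s, p)).card ≤ k.divisors.card := by
      apply card_le_card
      intro n hn
      rw [mem_image] at hn
      obtain ⟨s, hs, rfl⟩ := hn
      rw [mem_powerset] at hs
      rw [Nat.mem_divisors]
      exact ⟨(prod_dvd_prod_of_subset _ _ _ hs).trans (Nat.prod_primeFactors_dvd k), by omega⟩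
    rw [card_image_of_injOn, card_powerset] at h3
    · exact h3
    · intro s hs t ht hst
      rw [mem_coe, mem_powerset] at hs ht
      have e1 := Nat.primeFactors_prod (s := s) fun p hp => Nat.prime_of_mem_primeFactors (hs hp)
      have e2 := Nat.primeFactors_prod (s := t) fun p hp => Nat.prime_of_mem_primeFactors (ht hp)
      simp only at hst
      rw [← e1, ← e2, hst]
  have h3 : d ^ k.primeFactors.card ≤ k.divisors.card ^ (d + 1) := by
    calc d ^ k.primeFactors.card ≤ (2 ^ (d + 1)) ^ k.primeFactors.card :=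
          Nat.pow_le_pow_left (by have := Nat.lt_two_pow_self (n := d); rw [pow_succ]; omega) _
      _ = (2 ^ k.primeFactors.card) ^ (d + 1) := by rw [← pow_mul, ← pow_mul, mul_comm]
      _ ≤ _ := Nat.pow_le_pow_left h2 _
  have h4 := h k hk
  have hk0 : (0 : ℝ) ≤ (k : ℝ) ^ (δ / (d + 1)) := by positivity
  have h5 : (k.divisors.card : ℝ) ≤ max C 1 * (k : ℝ) ^ (δ / (d + 1)) :=
    h4.trans (mul_le_mul_of_nonneg_right (le_max_left _ _) hk0)
  calc ((d ^ k.primeFactors.card : ℕ) : ℝ) ≤ ((k.divisors.card ^ (d + 1) : ℕ) : ℝ) := by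
        exact_mod_cast h3
    _ = (k.divisors.card : ℝ) ^ (d + 1) := by push_cast; ring
    _ ≤ (max C 1 * (k : ℝ) ^ (δ / (d + 1))) ^ (d + 1) := pow_le_pow_left₀ (Nat.cast_nonneg _) h5 _
    _ = (max C 1) ^ (d + 1) * (k : ℝ) ^ δ := by
        rw [mul_pow, ← rpow_mul_natCast (Nat.cast_nonneg k)]
        congr 2
        push_cast
        field_simp

end Pool.Agent.H25WP
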