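import Pool.Agent.H25WP.Top

set_option autoImplicit false

/-! Polynomial values without a small witness. -/

namespace Pool.Agent.H25WP

open Finset Real Polynomial Pool.Agent.TH869.EVF Pool.Agent.W57.SW

open Classical in
lemma halve (p : ℕ → Prop) (K α : ℝ) (hK : 0 < K) (hα : 0 < α)
    (h : ∀ M : ℕ, 1 ≤ M → (((Icc 1 M).filter (fun m : ℕ => M < 2 * m ∧ p m)).card : ℝ) ≤
      K * (M : ℝ) ^ α) (M : ℕ) :
    (((Icc 1 M).filter p).card : ℝ) ≤ K / (1 - (2 : ℝ) ^ (-α)) * (M : ℝ) ^ α := by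
  have h2 : (2 : ℝ) ^ (-α) < 1 := rpow_lt_one_of_one_lt_of_neg (by norm_num) (by linarith)
  have h20 : (0 : ℝ) < (2 : ℝ) ^ (-α) := by positivity
  obtain ⟨K', hK'⟩ : ∃ K' : ℝ, K' = K / (1 - (2 : ℝ) ^ (-α)) := ⟨_, rfl⟩
  have hK'0 : 0 < K' := by rw [hK']; exact div_pos hK (by linarith)
  have hKK : K' * (2 : ℝ) ^ (-α) + K = K' := by
    rw [hK']
    have : (1 - (2 : ℝ) ^ (-α)) ≠ 0 := by linarith
    field_simp
    ring
  rw [← hK']
  induction M using Nat.strong_induction_on with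
  | _ M ih =>
  rcases Nat.eq_zero_or_pos M with h0 | h0
  · rw [h0]; simp
    positivity
  · have hsub : (Icc 1 M).filter p ⊆ (Icc 1 (M / 2)).filter p ∪
        (Icc 1 M).filter (fun m : ℕ => M < 2 * m ∧ p m) := by
      intro m hm
      rw [mem_filter, mem_Icc] at hm
      rw [mem_union, mem_filter, mem_filter, mem_Icc, mem_Icc]
      rcases lt_or_ge M (2 * m) with h1 | h1
      · exact Or.inr ⟨hm.1, h1, hm.2⟩
      · exact Or.inl ⟨⟨hm.1.1, by omega⟩, hm.2⟩
    have h1 : (((Icc 1 M).filter p).card : ℝ) ≤ ((Icc 1 (M / 2)).filter p).card +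
        ((Icc 1 M).filter (fun m : ℕ => M < 2 * m ∧ p m)).card := by
      exact_mod_cast (card_le_card hsub).trans (card_union_le _ _)
    have h3 := ih (M / 2) (by omega)
    have h4 := h M h0
    have hM0 : (0 : ℝ) ≤ M := Nat.cast_nonneg _
    have h5 : (((M / 2 : ℕ)) : ℝ) ^ α ≤ (2 : ℝ) ^ (-α) * (M : ℝ) ^ α := by
      have h6 : ((M / 2 : ℕ) : ℝ) ≤ (M : ℝ) / 2 := by
        have := Nat.cast_div_le (α := ℝ) (m := M) (n := 2)
        simpa using this
      refine (rpow_le_rpow (Nat.cast_nonneg _) h6 hα.le).trans (le_of_eq ?_)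
      rw [div_rpow hM0 (by norm_num), rpow_neg (by norm_num)]
      field_simp
    have h7 : K' * (((M / 2 : ℕ)) : ℝ) ^ α ≤ K' * ((2 : ℝ) ^ (-α) * (M : ℝ) ^ α) :=
      mul_le_mul_of_nonneg_left h5 hK'0.le
    calc (((Icc 1 M).filter p).card : ℝ) ≤ K' * ((2 : ℝ) ^ (-α) * (M : ℝ) ^ α) + K * (M : ℝ) ^ α := by
          linarith
      _ = (K' * (2 : ℝ) ^ (-α) + K) * (M : ℝ) ^ α := by ring
      _ = K' * (M : ℝ) ^ α := by rw [hKK]

open Classical in
theorem main (A ε : ℝ) (f : ℤ[X]) (hA : 2 ≤ A) (hε : 0 < ε) (hd : 2 ≤ f.natDegree)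
    (hf : ∀ (c : ℚ) (g : ℚ[X]), f.map (Int.castRingHom ℚ) ≠ C c * g ^ 2) :
    ∃ K : ℝ, 0 < K ∧ ∀ M : ℕ,
      (((Icc 1 M).filter (fun m : ℕ => Bd A (f.eval (m : ℤ)).natAbs)).card : ℝ) ≤
        K * (M : ℝ) ^ (max ((A + 1) / (2 * A))
          (((f.natDegree : ℝ) * (A - 1) + A + 1) / (A * (A + 1))) + ε) := by
  have hA0 : 0 < A := by linarith
  obtain ⟨E, hE⟩ : ∃ E : ℝ, E = max ((A + 1) / (2 * A))
          (((f.natDegree : ℝ) * (A - 1) + A + 1) / (A * (A + 1))) := ⟨_, rfl⟩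
  rw [← hE]
  have hEa : (A + 1) / (2 * A) ≤ E := by rw [hE]; exact le_max_left _ _
  have hEb : ((f.natDegree : ℝ) * (A - 1) + A + 1) / (A * (A + 1)) ≤ E := by
    rw [hE]; exact le_max_right _ _
  have hE0 : 0 < E := lt_of_lt_of_le (by positivity) hEa
  by_cases h1 : 1 ≤ E
  · refine ⟨1, one_pos, fun M => ?_⟩
    rw [one_mul]
    have hc : (((Icc 1 M).filter (fun m : ℕ => Bd A (f.eval (m : ℤ)).natAbs)).card : ℝ) ≤ M := by
      have : ((Icc 1 M).filter (fun m : ℕ => Bd A (f.eval (m : ℤ)).natAbs)).card ≤ M := by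
        refine (card_filter_le _ _).trans ?_
        rw [Nat.card_Icc]; omega
      exact_mod_cast this
    rcases Nat.eq_zero_or_pos M with h0 | h0
    · rw [h0] at hc ⊢
      refine hc.trans ?_
      simp
      positivity
    · have hM1 : (1 : ℝ) ≤ M := by exact_mod_cast h0
      calc _ ≤ (M : ℝ) := hc
        _ = (M : ℝ) ^ (1 : ℝ) := (rpow_one _).symm
        _ ≤ _ := rpow_le_rpow_of_exponent_le hM1 (by linarith)
  · push Not at h1
    obtain ⟨τ, hτ⟩ : ∃ τ : ℝ, τ = max 0 (2 * (f.natDegree : ℝ) / (A + 1) - 1) := ⟨_, rfl⟩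
    have hdA : (f.natDegree : ℝ) < A + 1 := by
      have h2 : ((f.natDegree : ℝ) * (A - 1) + A + 1) / (A * (A + 1)) < 1 := lt_of_le_of_lt hEb h1
      rw [div_lt_one (by positivity)] at h2
      by_contra h3
      push Not at h3
      nlinarith
    have hA1 : 0 < A + 1 := by linarith
    have hτ0 : 0 ≤ τ := by rw [hτ]; exact le_max_left _ _
    have hτ1 : τ ≤ 1 := by
      rw [hτ]
      apply max_le (by norm_num)
      have : 2 * (f.natDegree : ℝ) / (A + 1) ≤ 2 := by
        rw [div_le_iff₀ hA1]; linarith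
      linarith
    have hboth : (1 + 1 / A) / 2 * (1 - τ) + τ ≤ E ∧ ((f.natDegree : ℝ) - τ) / A ≤ E := by
      rcases le_or_gt (2 * (f.natDegree : ℝ) / (A + 1) - 1) 0 with h2 | h2
      · have hτe : τ = 0 := by rw [hτ]; exact max_eq_left h2
        rw [hτe]
        constructor
        · refine le_trans (le_of_eq ?_) hEa
          field_simp
          ring
        · refine le_trans ?_ hEa
          have h3 : 2 * (f.natDegree : ℝ) ≤ A + 1 := by
            have : 2 * (f.natDegree : ℝ) / (A + 1) ≤ 1 := by linarith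
            rwa [div_le_one hA1] at this
          rw [sub_zero, div_le_div_iff₀ hA0 (by positivity)]
          nlinarith
      · have hτe : τ = 2 * (f.natDegree : ℝ) / (A + 1) - 1 := by rw [hτ]; exact max_eq_right h2.le
        rw [hτe]
        constructor
        · refine le_trans (le_of_eq ?_) hEb
          field_simp
          ring
        · refine le_trans (le_of_eq ?_) hEb
          field_simp
          ring
    obtain ⟨K, hK, h2⟩ := top A ε f hA hε hd hf τ E hτ0 hτ1 hboth.1 hboth.2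
    have h3 : (2 : ℝ) ^ (-(E + ε)) < 1 :=
      rpow_lt_one_of_one_lt_of_neg (by norm_num) (by linarith)
    exact ⟨K / (1 - (2 : ℝ) ^ (-(E + ε))), div_pos hK (by linarith),
      halve (fun m : ℕ => Bd A (f.eval (m : ℤ)).natAbs) K (E + ε) hK (by linarith) h2⟩

end Pool.Agent.H25WP
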