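import Pool.Agent.W57.SW.Smooth

set_option autoImplicit false

/-! Many products of primes in `(B, (log Q) ^ A]` up to `Q`, even after division by `16 ^ u`. -/

namespace Pool.Agent.H25WP

open Finset Real Pool.Agent.W57.SW

/-- eventual inequalities -/
lemma ev_main' (A η B : ℝ) (hA : 1 < A) (hη : 0 < η) (hηA : η < A) : ∀ᶠ t : ℝ in Filter.atTop,
    (16 * t ^ (A - η) + t + B) * (A * log t) + log (t ^ A + 1) + 1 ≤ 0.69 * t ^ A := by
  have h1 := ev_main A (η / 2) hA (by linarith)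
  have h2 : ∀ᶠ t : ℝ in Filter.atTop, 16 + |B| ≤ t ^ (η / 2) :=
    (tendsto_rpow_atTop (by linarith)).eventually (Filter.eventually_ge_atTop _)
  filter_upwards [h1, h2, Filter.eventually_ge_atTop 1] with t a1 a2 a3
  have ht0 : 0 < t := by linarith
  have hl : 0 ≤ log t := log_nonneg a3
  have e : t ^ (A - η / 2) = t ^ (A - η) * t ^ (η / 2) := by
    rw [← rpow_add ht0]; congr 1; ring
  have h3 : 1 ≤ t ^ (A - η) := one_le_rpow a3 (by linarith)
  have h4 : 16 * t ^ (A - η) + B ≤ t ^ (A - η / 2) := by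
    rw [e]
    have h5 : t ^ (A - η) * (16 + |B|) ≤ t ^ (A - η) * t ^ (η / 2) :=
      mul_le_mul_of_nonneg_left a2 (by linarith)
    have h6 : B ≤ t ^ (A - η) * |B| := by
      calc B ≤ |B| := le_abs_self B
        _ = 1 * |B| := (one_mul _).symm
        _ ≤ t ^ (A - η) * |B| := mul_le_mul_of_nonneg_right h3 (abs_nonneg B)
    linarith
  have h7 : (16 * t ^ (A - η) + t + B) * (A * log t) ≤ (t ^ (A - η / 2) + t) * (A * log t) :=
    mul_le_mul_of_nonneg_right (by linarith) (mul_nonneg (by linarith) hl)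
  linarith

theorem many (A δ : ℝ) (hA : 1 < A) (hδ : 0 < δ) (B : ℕ) : ∃ Q0 : ℕ, 1 ≤ Q0 ∧ ∀ Q : ℕ, Q0 ≤ Q →
    ∃ (P : Finset ℕ) (u : ℕ), (∀ q ∈ P, q.Prime ∧ B < q ∧ (q : ℝ) ≤ (log Q) ^ A) ∧
      (∀ s ∈ P.powersetCard u, ∏ q ∈ s, q ≤ Q) ∧
      (16 : ℝ) ^ u * (Q : ℝ) ^ (1 - 1 / A - δ) ≤ (P.card.choose u : ℝ) := by
  have hA0 : 0 < A := by linarith
  obtain ⟨η, hη0, hη1, hη2⟩ : ∃ η : ℝ, 0 < η ∧ η ≤ A * δ / 2 ∧ η ≤ (A - 1) / 2 :=
    ⟨min (A * δ / 2) ((A - 1) / 2), lt_min (by positivity) (by linarith), min_le_left _ _,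
      min_le_right _ _⟩
  have hev1 := ev_main' A η B hA hη0 (by linarith)
  have hev2 : ∀ᶠ t : ℝ in Filter.atTop, 4 ≤ t ^ A :=
    (tendsto_rpow_atTop hA0).eventually (Filter.eventually_ge_atTop 4)
  have hev3 : ∀ᶠ t : ℝ in Filter.atTop, (A - 1 - η) * log t ≤ δ / 2 * t := by
    have h0 : 0 < A - 1 - η := by linarith
    have h := (isLittleO_log_id_atTop).def (show (0 : ℝ) < δ / 2 / (A - 1 - η) by positivity)
    filter_upwards [h, Filter.eventually_ge_atTop 1] with t ht ht1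
    rw [norm_of_nonneg (log_nonneg ht1), id, norm_of_nonneg (by linarith)] at ht
    calc (A - 1 - η) * log t ≤ (A - 1 - η) * (δ / 2 / (A - 1 - η) * t) :=
          mul_le_mul_of_nonneg_left ht h0.le
      _ = δ / 2 * t := by field_simp
  have hev4 : ∀ᶠ t : ℝ in Filter.atTop, A * log t < t := by
    have h := (isLittleO_log_id_atTop).def (show (0 : ℝ) < 1 / (2 * A) by positivity)
    filter_upwards [h, Filter.eventually_ge_atTop 1] with t ht ht1
    rw [norm_of_nonneg (log_nonneg ht1), id, norm_of_nonneg (by linarith)] at ht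
    calc A * log t ≤ A * (1 / (2 * A) * t) := mul_le_mul_of_nonneg_left ht hA0.le
      _ = t / 2 := by field_simp
      _ < t := by linarith
  have hev5 : ∀ᶠ t : ℝ in Filter.atTop, 2 ≤ t := Filter.eventually_ge_atTop _
  obtain ⟨t0, ht0⟩ := Filter.eventually_atTop.mp
    (hev1.and (hev2.and (hev3.and (hev4.and hev5))))
  refine ⟨max 1 ⌈exp t0⌉₊, le_max_left _ _, fun D hD => ?_⟩
  have hD1 : exp t0 ≤ D := Nat.ceil_le.mp ((le_max_right _ _).trans hD)
  have hD0 : (0 : ℝ) < D := (exp_pos _).trans_le hD1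
  obtain ⟨t, ht⟩ : ∃ t : ℝ, t = log D := ⟨_, rfl⟩
  have htt0 : t0 ≤ t := by rw [ht, le_log_iff_exp_le hD0]; exact hD1
  obtain ⟨h1, h2, h3, h4, h5⟩ := ht0 t htt0
  have htpos : 0 < t := by linarith
  have hlt : 0 < log t := log_pos (by linarith)
  obtain ⟨y, hy⟩ : ∃ y : ℕ, y = ⌊t ^ A⌋₊ := ⟨_, rfl⟩
  have hyle : (y : ℝ) ≤ t ^ A := by rw [hy]; exact Nat.floor_le (by positivity)
  have hylt : t ^ A < y + 1 := by rw [hy]; exact Nat.lt_floor_add_one _
  have hy3 : (3 : ℝ) < y := by linarith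
  have hy3' : 3 < y := by exact_mod_cast hy3
  have hy0 : (0 : ℝ) < y := by linarith
  obtain ⟨Y, hY⟩ : ∃ Y : ℝ, Y = log y := ⟨_, rfl⟩
  have hY1 : 1 ≤ Y := by
    rw [hY, le_log_iff_exp_le hy0]; linarith [exp_one_lt_d9]
  have hYle : Y ≤ A * log t := by
    have h6 := log_le_log hy0 hyle
    rw [log_rpow htpos] at h6
    rw [hY]; exact h6
  obtain ⟨u, hu⟩ : ∃ u : ℕ, u = Nat.log y D := ⟨_, rfl⟩
  have hDne : D ≠ 0 := by
    intro h; rw [h] at hD0; simp at hD0
  have huD : y ^ u ≤ D := by rw [hu]; exact Nat.pow_log_le_self y hDne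
  have huD' : D < y ^ (u + 1) := by rw [hu]; exact Nat.lt_pow_succ_log_self (by omega) D
  have hut : u * Y ≤ t := by
    have h3 : ((y ^ u : ℕ) : ℝ) ≤ D := by exact_mod_cast huD
    push_cast at h3
    have h4 := log_le_log (by positivity) h3
    rw [log_pow] at h4
    rw [hY, ht]; exact h4
  have hut' : t < (u + 1) * Y := by
    have h3 : (D : ℝ) < ((y ^ (u + 1) : ℕ) : ℝ) := by exact_mod_cast huD'
    push_cast at h3
    have h4 := log_lt_log hD0 h3
    rw [log_pow] at h4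
    push_cast at h4
    rw [hY, ht]; exact h4
  have hu0' : (0 : ℝ) ≤ u := Nat.cast_nonneg u
  have hut1 : (u : ℝ) ≤ t := by nlinarith
  have hut2 : t < (u + 1) * (A * log t) := by
    refine hut'.trans_le ?_
    exact mul_le_mul_of_nonneg_left hYle (by positivity)
  have hupos : (0 : ℝ) < u := by
    by_contra hc
    have hu0 : (u : ℝ) = 0 := le_antisymm (not_lt.mp hc) hu0'
    rw [hu0] at hut2
    linarith
  have hu1 : 1 ≤ u := by exact_mod_cast hupos
  -- number of primes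
  obtain ⟨P, hP⟩ : ∃ P : Finset ℕ, P = (pr y).filter (fun q => B < q) := ⟨_, rfl⟩
  have hPm : ∀ q ∈ P, q.Prime ∧ B < q ∧ q ≤ y := by
    intro q hq
    rw [hP, mem_filter, mem_pr] at hq
    exact ⟨hq.1.1, hq.2, hq.1.2⟩
  obtain ⟨N, hN⟩ : ∃ N : ℕ, N = P.card := ⟨_, rfl⟩
  have hNpi : (Nat.primeCounting y : ℝ) - B ≤ N := by
    have h6 : (pr y).card ≤ P.card + B := by
      have h7 : pr y ⊆ P ∪ Icc 1 B := by
        intro q hq
        rw [mem_union, hP, mem_filter, mem_Icc]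
        rcases lt_or_ge B q with h | h
        · exact Or.inl ⟨hq, h⟩
        · exact Or.inr ⟨(mem_pr.mp hq).1.one_lt.le, h⟩
      have h8 := (card_le_card h7).trans (card_union_le _ _)
      rwa [Nat.card_Icc, Nat.add_sub_cancel] at h8
    rw [card_pr, ← hN] at h6
    have h9 : ((Nat.primeCounting y : ℕ) : ℝ) ≤ ((N + B : ℕ) : ℝ) := by exact_mod_cast h6
    push_cast at h9
    linarith
  have hlow := primeCounting_low (y := y)
  have hNlow : 16 * t ^ (A - η) ≤ (N : ℝ) + 1 - u := by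
    have h6 : (0.69 : ℝ) * (t ^ A - 1) ≤ y * log 2 := by
      have h7 : (0.69 : ℝ) ≤ log 2 := by linarith [log_two_gt_d9]
      have h8 : t ^ A - 1 ≤ y := by linarith
      calc 0.69 * (t ^ A - 1) ≤ 0.69 * y := mul_le_mul_of_nonneg_left h8 (by norm_num)
        _ ≤ log 2 * y := mul_le_mul_of_nonneg_right h7 hy0.le
        _ = y * log 2 := mul_comm _ _
    have h9 : log ((y : ℝ) + 1) ≤ log (t ^ A + 1) := log_le_log (by positivity) (by linarith)
    have h10 : (16 * t ^ (A - η) + t + B) * (A * log t) ≤ Nat.primeCounting y * Y := by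
      rw [hY]; nlinarith
    have h11 : (16 * t ^ (A - η) + t + B) * (A * log t) ≤ Nat.primeCounting y * (A * log t) := by
      refine h10.trans ?_
      exact mul_le_mul_of_nonneg_left hYle (Nat.cast_nonneg _)
    have h12 := le_of_mul_le_mul_right h11 (by positivity)
    linarith
  have htA : 0 < t ^ (A - η) := by positivity
  have hNu : u ≤ N := by
    have h6 : (u : ℝ) < ((N + 1 : ℕ) : ℝ) := by push_cast; linarith
    have h7 : u < N + 1 := by exact_mod_cast h6
    omega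
  have hch : (16 * t ^ (A - η) / t) ^ u ≤ (N.choose u : ℝ) := by
    have h6 := Nat.pow_le_choose u N (α := ℝ)
    have h7 : ((N + 1 - u : ℕ) : ℝ) = N + 1 - u := by
      rw [Nat.cast_sub (by omega)]; push_cast; ring
    rw [h7] at h6
    refine le_trans ?_ h6
    rw [div_pow]
    have htA' : 0 ≤ 16 * t ^ (A - η) := by positivity
    apply div_le_div₀ (pow_nonneg (htA'.trans hNlow) u)
    · exact pow_le_pow_left₀ htA' hNlow u
    · positivity
    · have h8 : (u.factorial : ℝ) ≤ (u : ℝ) ^ u := by exact_mod_cast Nat.factorial_le_pow u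
      exact h8.trans (pow_le_pow_left₀ hu0' hut1 u)
  have hfin : (16 : ℝ) ^ u * (D : ℝ) ^ (1 - 1 / A - δ) ≤ (N.choose u : ℝ) := by
    refine le_trans ?_ hch
    rw [mul_div_assoc, mul_pow]
    apply mul_le_mul_of_nonneg_left _ (by positivity)
    have e1 : t ^ (A - η) / t = exp ((A - η - 1) * log t) := by
      nth_rewrite 2 [← rpow_one t]
      rw [← rpow_sub htpos, rpow_def_of_pos htpos]
      congr 1; ring
    rw [e1, ← exp_nat_mul, rpow_def_of_pos hD0, ← ht]
    apply exp_le_exp.mpr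
    have e2 : t / (A * log t) - 1 ≤ u := by
      rw [sub_le_iff_le_add, div_le_iff₀ (by positivity)]
      exact hut2.le
    have e3 : 0 ≤ (A - η - 1) * log t := by
      apply mul_nonneg (by linarith) hlt.le
    have e4 : (t / (A * log t) - 1) * ((A - η - 1) * log t) ≤ u * ((A - η - 1) * log t) :=
      mul_le_mul_of_nonneg_right e2 e3
    refine le_trans ?_ e4
    have e5 : (t / (A * log t) - 1) * ((A - η - 1) * log t) =
        t * (1 - 1 / A - η / A) - (A - 1 - η) * log t := by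
      field_simp
      ring
    rw [e5]
    have e6 : η / A ≤ δ / 2 := by
      rw [div_le_iff₀ hA0]; linarith
    nlinarith
  refine ⟨P, u, ?_, ?_, ?_⟩
  · intro q hq
    obtain ⟨a1, a2, a3⟩ := hPm q hq
    refine ⟨a1, a2, ?_⟩
    rw [← ht]
    have : (q : ℝ) ≤ y := by exact_mod_cast a3
    linarith
  · intro s hs
    rw [mem_powersetCard] at hs
    calc ∏ q ∈ s, q ≤ ∏ _q ∈ s, y := prod_le_prod' fun q hq => (hPm q (hs.1 hq)).2.2
      _ = y ^ u := by rw [prod_const, hs.2]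
      _ ≤ D := huD
  · rw [← hN]; exact hfin

end Pool.Agent.H25WP
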