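import Pool.Agent.H25WP.Sieve
import Pool.Agent.TH869.EVF.Bad
import Pool.Agent.W57.SW.Count

set_option autoImplicit false

/-! Symbols of the values of a polynomial, and the sieve for arithmetic progressions. -/

namespace Pool.Agent.H25WP

open Finset Real Polynomial Pool.Agent.TH869.EVF Pool.Agent.W57.SW

lemma jac_cong (f : ℤ[X]) (ℓ : ℕ) (a b : ℤ) (h : (ℓ : ℤ) ∣ a - b) :
    jacobiSym (f.eval a) ℓ = jacobiSym (f.eval b) ℓ := by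
  rw [jacobiSym.mod_left (f.eval a), jacobiSym.mod_left (f.eval b)]
  congr 1
  apply Int.emod_eq_emod_iff_emod_sub_eq_zero.mpr
  exact Int.emod_eq_zero_of_dvd (h.trans (sub_dvd_eval_sub a b f))

lemma sum_affine (f : ℤ[X]) (ℓ : ℕ) (hℓ : ℓ.Prime) (D r0 : ℤ) (hD : ¬ (ℓ : ℤ) ∣ D) :
    ∑ t ∈ range ℓ, (jacobiSym (f.eval (r0 + D * t)) ℓ : ℝ) =
      ∑ x ∈ range ℓ, (jacobiSym (f.eval (x : ℤ)) ℓ : ℝ) := by
  have : Fact ℓ.Prime := ⟨hℓ⟩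
  set F : ZMod ℓ → ℝ := fun z => (jacobiSym (f.eval (z.val : ℤ)) ℓ : ℝ) with hF
  have h1 : ∀ a : ℤ, (jacobiSym (f.eval a) ℓ : ℝ) = F (a : ZMod ℓ) := by
    intro a
    simp only [hF]
    congr 1
    apply jac_cong
    rw [← ZMod.intCast_zmod_eq_zero_iff_dvd]
    push_cast
    rw [ZMod.natCast_zmod_val, sub_self]
  have e1 : ∑ x ∈ range ℓ, (jacobiSym (f.eval (x : ℤ)) ℓ : ℝ) = ∑ z : ZMod ℓ, F z := by
    rw [sum_zmod]
    refine sum_congr rfl fun x _ => ?_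
    rw [h1]; simp
  have e2 : ∑ t ∈ range ℓ, (jacobiSym (f.eval (r0 + D * t)) ℓ : ℝ) =
      ∑ z : ZMod ℓ, F ((r0 : ZMod ℓ) + (D : ZMod ℓ) * z) := by
    rw [sum_zmod]
    refine sum_congr rfl fun x _ => ?_
    rw [h1]; push_cast; rfl
  rw [e1, e2]
  have hD0 : (D : ZMod ℓ) ≠ 0 := by
    rwa [Ne, ZMod.intCast_zmod_eq_zero_iff_dvd]
  exact Equiv.sum_comp ((Equiv.mulLeft₀ (D : ZMod ℓ) hD0).trans (Equiv.addLeft (r0 : ZMod ℓ))) F

/-- the classes with a given symbol -/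
def cls (f : ℤ[X]) (D r0 e : ℤ) (ℓ : ℕ) : Finset ℕ :=
  (range ℓ).filter (fun t => jacobiSym (f.eval (r0 + D * (t : ℤ))) ℓ = e)

lemma cls_card (f : ℤ[X]) (hf : ∀ (c : ℚ) (g : ℚ[X]), f.map (Int.castRingHom ℚ) ≠ C c * g ^ 2) :
    ∃ B : ℕ, 2 ≤ B ∧ ∀ ℓ : ℕ, ℓ.Prime → B < ℓ → ∀ D r0 e : ℤ, ¬ (ℓ : ℤ) ∣ D → (e = 1 ∨ e = -1) →
      4 * (cls f D r0 e ℓ).card ≤ 3 * ℓ := by
  obtain ⟨K, p0, hK0, hK⟩ := weil_f f hf
  obtain ⟨B1, hB1⟩ := exists_nat_ge ((2 * K) ^ 2)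
  refine ⟨max 2 (max p0 B1), le_max_left _ _, ?_⟩
  intro ℓ hℓ hBℓ D r0 e hD he
  have h2 : p0 < ℓ := lt_of_le_of_lt (le_trans (le_max_left _ _) (le_max_right _ _)) hBℓ
  have h3 : B1 < ℓ := lt_of_le_of_lt (le_trans (le_max_right _ _) (le_max_right _ _)) hBℓ
  have hweil := hK ℓ hℓ h2
  rw [← sum_affine f ℓ hℓ D r0 hD] at hweil
  have h4 : 2 * K ≤ √ℓ := by
    apply le_sqrt_of_sq_le
    have : (B1 : ℝ) < ℓ := by exact_mod_cast h3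
    linarith
  have hs : √(ℓ : ℝ) * √ℓ = ℓ := mul_self_sqrt (Nat.cast_nonneg _)
  have h5 : K * √ℓ ≤ ℓ / 2 := by nlinarith [sqrt_nonneg (ℓ : ℝ)]
  have hsum : (2 : ℝ) * (cls f D r0 e ℓ).card ≤
      ∑ t ∈ range ℓ, (1 + (e : ℝ) * (jacobiSym (f.eval (r0 + D * t)) ℓ : ℝ)) := by
    have h6 : (2 : ℝ) * (cls f D r0 e ℓ).card = ∑ t ∈ range ℓ,
        (if jacobiSym (f.eval (r0 + D * (t : ℤ))) ℓ = e then (2 : ℝ) else 0) := by
      rw [← sum_filter, sum_const, nsmul_eq_mul, cls]; ring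
    rw [h6]
    refine sum_le_sum fun t _ => ?_
    have hn : NeZero ℓ := ⟨hℓ.ne_zero⟩
    have htri := jacobiSym.trichotomy (f.eval (r0 + D * (t : ℤ))) ℓ
    split_ifs with hh
    · rw [hh]
      rcases he with rfl | rfl <;> norm_num
    · rcases he with rfl | rfl <;> rcases htri with h | h | h <;> rw [h] <;> norm_num
  have hsum2 : ∑ t ∈ range ℓ, (1 + (e : ℝ) * (jacobiSym (f.eval (r0 + D * t)) ℓ : ℝ)) ≤
      (3 / 2 : ℝ) * ℓ := by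
    rw [sum_add_distrib, ← mul_sum, sum_const, card_range, nsmul_eq_mul, mul_one]
    obtain ⟨a1, a2⟩ := abs_le.1 hweil
    rcases he with rfl | rfl
    · push_cast; linarith
    · push_cast; linarith
  have : (4 : ℝ) * (cls f D r0 e ℓ).card ≤ 3 * ℓ := by linarith
  exact_mod_cast this

/-- reciprocity -/
lemma recip {k ℓ : ℕ} (hk : Odd k) (hℓ : Odd ℓ) (h : jacobiSym (ℓ : ℤ) k = 1) :
    jacobiSym (k : ℤ) ℓ = jacobiSym (ZMod.χ₄ k) ℓ := by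
  have h1 := jacobiSym.quadratic_reciprocity' hk hℓ
  rw [h, mul_one, qrSign.symm hℓ hk] at h1
  exact h1

lemma chi4_odd {k : ℕ} (hk : Odd k) : ZMod.χ₄ (k : ZMod 4) = 1 ∨ ZMod.χ₄ (k : ZMod 4) = -1 := by
  rcases Nat.odd_mod_four_iff.mp (Nat.odd_iff.mp hk) with h | h
  · left; exact ZMod.χ₄_nat_one_mod_four h
  · right; exact ZMod.χ₄_nat_three_mod_four h

/-- the symbols of the value -/
lemma value_sym {v : ℤ} {D k : ℕ} (hv : v.natAbs = D * k) (hk : Odd k) :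
    ∃ e : ℤ, (e = 1 ∨ e = -1) ∧ ∀ ℓ : ℕ, Odd ℓ → jacobiSym (ℓ : ℤ) k = 1 →
      jacobiSym v ℓ = jacobiSym (e * D) ℓ := by
  have hc := chi4_odd hk
  obtain ⟨c, hcd⟩ : ∃ c : ℤ, c = ZMod.χ₄ (k : ZMod 4) := ⟨_, rfl⟩
  rw [← hcd] at hc
  have key : ∀ sg : ℤ, v = sg * (D * k : ℕ) → ∀ ℓ : ℕ, Odd ℓ → jacobiSym (ℓ : ℤ) k = 1 →
      jacobiSym v ℓ = jacobiSym ((sg * c) * D) ℓ := by
    intro sg hsg ℓ hℓ h
    have h1 := recip hk hℓ h
    rw [← hcd] at h1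
    rw [hsg]
    push_cast
    rw [jacobiSym.mul_left, jacobiSym.mul_left, jacobiSym.mul_left, jacobiSym.mul_left, h1]
    ring
  rcases Int.natAbs_eq v with h | h
  · refine ⟨1 * c, by rw [one_mul]; exact hc, key 1 ?_⟩
    rw [h, hv, one_mul]
  · refine ⟨-1 * c, ?_, key (-1) ?_⟩
    · rcases hc with h' | h' <;> rw [h'] <;> norm_num
    · rw [h, hv]; ring

/-- the sieve for the values of a polynomial on an arithmetic progression -/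
theorem sieve_poly (f : ℤ[X])
    (hf : ∀ (c : ℚ) (g : ℚ[X]), f.map (Int.castRingHom ℚ) ≠ C c * g ^ 2)
    (A δ : ℝ) (hA : 1 < A) (hδ : 0 < δ) : ∃ C : ℝ, 1 ≤ C ∧ ∀ (x T : ℕ), 1 ≤ T → T ≤ x →
      ∀ (D : ℕ), (∀ ℓ ∈ opr ⌊(log x) ^ A⌋₊, ¬ ℓ ∣ D) → ∀ (r0 : ℤ) (E : Finset ℕ), E ⊆ Icc 1 T →
      (∀ t ∈ E, ∃ k : ℕ, Odd k ∧ (∀ ℓ ∈ opr ⌊(log x) ^ A⌋₊, jacobiSym (ℓ : ℤ) k = 1) ∧
        (f.eval (r0 + D * (t : ℤ))).natAbs = D * k) →
      (E.card : ℝ) ≤ C * (T : ℝ) ^ ((1 + 1 / A + δ) / 2) := by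
  classical
  obtain ⟨B, hB2, hB⟩ := cls_card f hf
  obtain ⟨C, hC, hs⟩ := sieve A δ hA hδ B
  refine ⟨2 * C, by linarith, ?_⟩
  intro x T hT hTx D hD r0 E hE hE'
  have hmem : ∀ q : ℕ, q.Prime → B < q → (q : ℝ) ≤ (log x) ^ A → q ∈ opr ⌊(log (x : ℝ)) ^ A⌋₊ := by
    intro q hq hBq hqx
    rw [mem_opr]
    exact ⟨hq, Nat.le_floor hqx, by omega⟩
  obtain ⟨F, hF⟩ : ∃ F : ℤ → Finset ℕ, ∀ e, F e = E.filter (fun t : ℕ =>
      ∀ ℓ ∈ opr ⌊(log (x : ℝ)) ^ A⌋₊, jacobiSym (f.eval (r0 + D * (t : ℤ))) ℓ = jacobiSym (e * D) ℓ) :=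
    ⟨_, fun _ => rfl⟩
  have hcov : E ⊆ F 1 ∪ F (-1) := by
    intro t ht
    obtain ⟨k, hk, hk1, hk2⟩ := hE' t ht
    obtain ⟨e, he, he2⟩ := value_sym hk2 hk
    rw [mem_union, hF, hF, mem_filter, mem_filter]
    have h1 : ∀ ℓ ∈ opr ⌊(log (x : ℝ)) ^ A⌋₊,
        jacobiSym (f.eval (r0 + D * (t : ℤ))) ℓ = jacobiSym (e * D) ℓ := by
      intro ℓ hℓ
      apply he2 ℓ _ (hk1 ℓ hℓ)
      rw [mem_opr] at hℓ
      exact hℓ.1.odd_of_ne_two hℓ.2.2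
    rcases he with rfl | rfl
    · exact Or.inl ⟨ht, h1⟩
    · exact Or.inr ⟨ht, h1⟩
  have hbd : ∀ e : ℤ, (e = 1 ∨ e = -1) →
      ((F e).card : ℝ) ≤ C * (T : ℝ) ^ ((1 + 1 / A + δ) / 2) := by
    intro e he
    refine hs x T (fun q => cls f D r0 (jacobiSym (e * D) q) q) hT (by exact_mod_cast hTx) ?_ (F e)
      ((by rw [hF]; exact filter_subset _ _ : F e ⊆ E).trans hE) ?_
    · intro q hq hBq hqx
      refine ⟨filter_subset _ _, ?_⟩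
      have hqm := hmem q hq hBq hqx
      have hqD := hD q hqm
      have hn : NeZero q := ⟨hq.ne_zero⟩
      apply hB q hq hBq _ _ _ (by exact_mod_cast hqD)
      rcases jacobiSym.trichotomy (e * D) q with h | h | h
      · exfalso
        rw [jacobiSym.eq_zero_iff_not_coprime] at h
        apply h
        have hc : Nat.Coprime D q := ((Nat.Prime.coprime_iff_not_dvd hq).mpr hqD).symm
        have : (e * (D : ℤ)).gcd (q : ℤ) = (D : ℤ).gcd (q : ℤ) := by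
          rcases he with rfl | rfl
          · rw [one_mul]
          · rw [neg_one_mul, Int.neg_gcd]
        rw [this, Int.gcd_natCast_natCast]
        exact hc
      · exact Or.inl h
      · exact Or.inr h
    · intro t ht q hq hBq hqx
      rw [hF, mem_filter] at ht
      have hqm := hmem q hq hBq hqx
      simp only [cls]
      rw [mem_filter, mem_range]
      refine ⟨Nat.mod_lt _ hq.pos, ?_⟩
      rw [← ht.2 q hqm]
      apply jac_cong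
      have : (r0 + (D : ℤ) * ((t % q : ℕ) : ℤ)) - (r0 + (D : ℤ) * (t : ℤ)) =
          D * (((t % q : ℕ) : ℤ) - t) := by ring
      rw [this]
      apply Dvd.dvd.mul_left
      have h2 : (t : ℤ) = ((t % q : ℕ) : ℤ) + q * ((t / q : ℕ) : ℤ) := by
        exact_mod_cast (Nat.mod_add_div t q).symm
      exact ⟨-((t / q : ℕ) : ℤ), by linarith⟩
  have h1 := hbd 1 (Or.inl rfl)
  have h2 := hbd (-1) (Or.inr rfl)
  have h3 : (E.card : ℝ) ≤ (F 1).card + (F (-1)).card := by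
    exact_mod_cast (card_le_card hcov).trans (card_union_le _ _)
  linarith

end Pool.Agent.H25WP
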