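import Pool.Agent.H25WP.Many
import Pool.Agent.H174R3.D6.TaskLS

set_option autoImplicit false

/-! A large sieve bound: integers avoiding a quarter of the classes modulo all primes up to `(log x) ^ A`. -/

namespace Pool.Agent.H25WP

open Finset Real Pool.Agent.H295R3.D6

/-- the sieve for one family -/
lemma sieve_core (T Q u : ℕ) (P : Finset ℕ) (I : ℕ → Finset ℕ) (hP : ∀ q ∈ P, q.Prime)
    (hI : ∀ q ∈ P, I q ⊆ range q) (hI' : ∀ q ∈ P, 4 * (I q).card ≤ 3 * q)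
    (hS : ∀ s ∈ P.powersetCard u, ∏ q ∈ s, q ≤ Q) (hQ : Q ^ 2 ≤ T)
    (E : Finset ℕ) (hE : E ⊆ Icc 1 T) (hE' : ∀ t ∈ E, ∀ q ∈ P, t % q ∈ I q) :
    (E.card : ℝ) * (P.card.choose u : ℝ) ≤ 12 * T * 16 ^ u := by
  classical
  set S := P.powersetCard u with hSd
  set ρ : ℕ → ℝ := fun q => ((I q).card : ℝ) / q with hρ
  have hρ0 : ∀ q ∈ P, 0 ≤ ρ q := fun q _ => by simp only [hρ]; positivity
  have hρ1 : ∀ q ∈ P, ρ q ≤ 3 / 4 := by
    intro q hq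
    have h1 : (0 : ℝ) < q := by exact_mod_cast (hP q hq).pos
    have h2 : (4 : ℝ) * (I q).card ≤ 3 * q := by exact_mod_cast hI' q hq
    simp only [hρ]
    rw [div_le_iff₀ h1]; linarith
  set w : Finset ℕ → ℝ := fun s => ∏ q ∈ s, (1 - ρ q)⁻¹ with hw
  have hls := Pool.Agent.H174R3.D6LS.taskLS T Q P I S w hP hI
    (fun s hs => ⟨(mem_powersetCard.1 hs).1, hS s hs⟩)
  have hcard : S.card = P.card.choose u := card_powersetCard u P
  -- lower bound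
  have hlow : (E.card : ℝ) * (S.card : ℝ) ^ 2 ≤
      ∑ n ∈ Icc 1 T, (∑ s ∈ S, w s * ∏ q ∈ s,
        ((if n % q ∈ I q then (1 : ℝ) else 0) - ((I q).card : ℝ) / q)) ^ 2 := by
    have h1 : ∀ t ∈ E, (∑ s ∈ S, w s * ∏ q ∈ s,
        ((if t % q ∈ I q then (1 : ℝ) else 0) - ((I q).card : ℝ) / q)) ^ 2 = (S.card : ℝ) ^ 2 := by
      intro t ht
      congr 1
      rw [show (S.card : ℝ) = ∑ s ∈ S, (1 : ℝ) by simp]
      refine sum_congr rfl fun s hs => ?_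
      have hsP := (mem_powersetCard.1 hs).1
      rw [hw]
      simp only
      rw [← prod_mul_distrib]
      refine prod_eq_one fun q hq => ?_
      rw [if_pos (hE' t ht q (hsP hq))]
      have h2 := hρ1 q (hsP hq)
      have h3 : (1 - ρ q) ≠ 0 := by linarith
      exact inv_mul_cancel₀ h3
    calc (E.card : ℝ) * (S.card : ℝ) ^ 2 = ∑ t ∈ E, (S.card : ℝ) ^ 2 := by
          rw [sum_const, nsmul_eq_mul]
      _ = ∑ t ∈ E, (∑ s ∈ S, w s * ∏ q ∈ s,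
        ((if t % q ∈ I q then (1 : ℝ) else 0) - ((I q).card : ℝ) / q)) ^ 2 :=
          sum_congr rfl fun t ht => (h1 t ht).symm
      _ ≤ _ := sum_le_sum_of_subset_of_nonneg hE fun _ _ _ => sq_nonneg _
  have hup : ∑ s ∈ S, w s ^ 2 * ∏ q ∈ s, ((I q).card : ℝ) / q ≤ (S.card : ℝ) * 16 ^ u := by
    have h1 : ∀ s ∈ S, w s ^ 2 * ∏ q ∈ s, ((I q).card : ℝ) / q ≤ 16 ^ u := by
      intro s hs
      obtain ⟨hsP, hsu⟩ := mem_powersetCard.1 hs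
      rw [hw]
      simp only
      rw [← prod_pow, ← prod_mul_distrib, ← hsu, ← prod_const]
      refine prod_le_prod (fun q hq => ?_) (fun q hq => ?_)
      · have := hρ0 q (hsP hq)
        exact mul_nonneg (sq_nonneg _) this
      · have h2 := hρ1 q (hsP hq)
        have h0 := hρ0 q (hsP hq)
        have h3 : (1 / 4 : ℝ) ≤ 1 - ρ q := by linarith
        have h4 : (1 - ρ q)⁻¹ ≤ 4 := by
          rw [inv_le_comm₀ (by linarith) (by norm_num)]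
          linarith
        have h5 : 0 ≤ (1 - ρ q)⁻¹ := inv_nonneg.2 (by linarith)
        have h6 : ((1 - ρ q)⁻¹) ^ 2 ≤ 16 := by nlinarith
        calc ((1 - ρ q)⁻¹) ^ 2 * (((I q).card : ℝ) / q) ≤ 16 * 1 :=
              mul_le_mul h6 (by have : ρ q ≤ 1 := by linarith
                                exact this) h0 (by norm_num)
          _ = 16 := by norm_num
    calc ∑ s ∈ S, w s ^ 2 * ∏ q ∈ s, ((I q).card : ℝ) / q ≤ ∑ s ∈ S, (16 : ℝ) ^ u :=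
          sum_le_sum h1
      _ = _ := by rw [sum_const, nsmul_eq_mul]
  have hQ' : (Q : ℝ) ^ 2 ≤ T := by exact_mod_cast hQ
  have hT0 : (0 : ℝ) ≤ T := Nat.cast_nonneg _
  have hmain : (E.card : ℝ) * (S.card : ℝ) ^ 2 ≤ 12 * T * ((S.card : ℝ) * 16 ^ u) := by
    calc (E.card : ℝ) * (S.card : ℝ) ^ 2 ≤ _ := hlow
      _ ≤ _ := hls
      _ ≤ 6 * ((T : ℝ) + (Q : ℝ) ^ 2) * ((S.card : ℝ) * 16 ^ u) :=
          mul_le_mul_of_nonneg_left hup (by positivity)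
      _ ≤ 12 * T * ((S.card : ℝ) * 16 ^ u) := by
          apply mul_le_mul_of_nonneg_right _ (by positivity)
          linarith
  rw [← hcard]
  rcases Nat.eq_zero_or_pos S.card with h0 | h0
  · rw [h0]; simp
  · have h0' : (0 : ℝ) < S.card := by exact_mod_cast h0
    have : (S.card : ℝ) * ((E.card : ℝ) * S.card) ≤ (S.card : ℝ) * (12 * T * 16 ^ u) := by
      calc (S.card : ℝ) * ((E.card : ℝ) * S.card) = (E.card : ℝ) * (S.card : ℝ) ^ 2 := by ring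
        _ ≤ _ := hmain
        _ = _ := by ring
    exact le_of_mul_le_mul_left this h0'

/-- the sieve bound -/
theorem sieve (A δ : ℝ) (hA : 1 < A) (hδ : 0 < δ) (B : ℕ) : ∃ C : ℝ, 1 ≤ C ∧
    ∀ (x : ℝ) (T : ℕ) (I : ℕ → Finset ℕ), 1 ≤ T → (T : ℝ) ≤ x →
    (∀ q : ℕ, q.Prime → B < q → (q : ℝ) ≤ (log x) ^ A → I q ⊆ range q ∧ 4 * (I q).card ≤ 3 * q) →
    ∀ E : Finset ℕ, E ⊆ Icc 1 T →
      (∀ t ∈ E, ∀ q : ℕ, q.Prime → B < q → (q : ℝ) ≤ (log x) ^ A → t % q ∈ I q) →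
      (E.card : ℝ) ≤ C * (T : ℝ) ^ ((1 + 1 / A + δ) / 2) := by
  obtain ⟨Q0, hQ0, H⟩ := many A δ hA hδ B
  refine ⟨((Q0 + 1 : ℕ) : ℝ) ^ 2 + 24, by nlinarith [sq_nonneg (((Q0 + 1 : ℕ) : ℝ))], ?_⟩
  intro x T I hT hTx hI E hE hE'
  have hT1 : (1 : ℝ) ≤ T := by exact_mod_cast hT
  have hcE : (E.card : ℝ) ≤ T := by
    have := card_le_card hE
    rw [Nat.card_Icc] at this
    exact_mod_cast this
  have hAi : 1 / A < 1 := by rw [div_lt_one (by linarith)]; exact hA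
  have hAi0 : 0 < 1 / A := by positivity
  have he0 : 0 ≤ (1 + 1 / A + δ) / 2 := by linarith
  have hTp : 1 ≤ (T : ℝ) ^ ((1 + 1 / A + δ) / 2) := one_le_rpow hT1 he0
  by_cases hbig : 1 ≤ (1 + 1 / A + δ) / 2
  · calc (E.card : ℝ) ≤ T := hcE
      _ = (T : ℝ) ^ (1 : ℝ) := (rpow_one _).symm
      _ ≤ (T : ℝ) ^ ((1 + 1 / A + δ) / 2) := rpow_le_rpow_of_exponent_le hT1 hbig
      _ ≤ _ := le_mul_of_one_le_left (by linarith) (by nlinarith [sq_nonneg (((Q0 + 1 : ℕ) : ℝ))])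
  push Not at hbig
  set Q := Nat.sqrt T with hQd
  by_cases hQs : Q < Q0
  · have h1 : T < (Q0 + 1) ^ 2 := by
      have := Nat.lt_succ_sqrt' T
      calc T < (Nat.sqrt T).succ ^ 2 := this
        _ ≤ (Q0 + 1) ^ 2 := Nat.pow_le_pow_left (by rw [← hQd]; omega) 2
    have h2 : (T : ℝ) ≤ ((Q0 + 1 : ℕ) : ℝ) ^ 2 := by exact_mod_cast h1.le
    calc (E.card : ℝ) ≤ T := hcE
      _ ≤ ((Q0 + 1 : ℕ) : ℝ) ^ 2 + 24 := by linarith
      _ ≤ _ := le_mul_of_one_le_right (by positivity) hTp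
  push Not at hQs
  obtain ⟨P, u, hP1, hP2, hP3⟩ := H Q hQs
  have hQ1 : 1 ≤ Q := le_trans hQ0 hQs
  have hQR : (1 : ℝ) ≤ Q := by exact_mod_cast hQ1
  have hQT : Q ^ 2 ≤ T := by rw [hQd]; exact Nat.sqrt_le' T
  have hQx : (Q : ℝ) ≤ x := by
    have : Q ≤ T := by rw [hQd]; exact Nat.sqrt_le_self T
    exact le_trans (by exact_mod_cast this) hTx
  have hx0 : (log Q) ^ A ≤ (log x) ^ A :=
    rpow_le_rpow (log_nonneg hQR) (log_le_log (by linarith) hQx) (by linarith)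
  have hcore := sieve_core T Q u P I (fun q hq => (hP1 q hq).1)
    (fun q hq => (hI q (hP1 q hq).1 (hP1 q hq).2.1 ((hP1 q hq).2.2.trans hx0)).1)
    (fun q hq => (hI q (hP1 q hq).1 (hP1 q hq).2.1 ((hP1 q hq).2.2.trans hx0)).2)
    hP2 hQT E hE (fun t ht q hq => hE' t ht q (hP1 q hq).1 (hP1 q hq).2.1 ((hP1 q hq).2.2.trans hx0))
  set β := 1 - 1 / A - δ with hβ
  have hβ0 : 0 < β := by rw [hβ]; linarith
  have hβ1 : β ≤ 1 := by rw [hβ]; linarith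
  have h16 : (0 : ℝ) < 16 ^ u := by positivity
  have h1 : (E.card : ℝ) * (Q : ℝ) ^ β ≤ 12 * T := by
    have h2 : (E.card : ℝ) * ((16 : ℝ) ^ u * (Q : ℝ) ^ β) ≤ 12 * T * 16 ^ u :=
      le_trans (mul_le_mul_of_nonneg_left hP3 (Nat.cast_nonneg _)) hcore
    have h3 : (16 : ℝ) ^ u * ((E.card : ℝ) * (Q : ℝ) ^ β) ≤ 16 ^ u * (12 * T) := by linarith
    exact le_of_mul_le_mul_left h3 h16
  -- Q ≥ √T / 2
  have hQlow : ((T : ℝ) ^ ((1 : ℝ) / 2)) / 2 ≤ Q := by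
    have h2 : (T : ℝ) ^ ((1 : ℝ) / 2) ≤ Q + 1 := by
      rw [← sqrt_eq_rpow]
      apply sqrt_le_iff.2 ⟨by positivity, ?_⟩
      have := Nat.lt_succ_sqrt' T
      have h4 : T ≤ (Q + 1) ^ 2 := by rw [hQd]; exact this.le
      exact_mod_cast h4
    linarith
  have hs0 : (0 : ℝ) < (T : ℝ) ^ ((1 : ℝ) / 2) := by positivity
  have h2 : (T : ℝ) ^ (β / 2) ≤ 2 * (Q : ℝ) ^ β := by
    have h3 : (((T : ℝ) ^ ((1 : ℝ) / 2)) / 2) ^ β ≤ (Q : ℝ) ^ β :=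
      rpow_le_rpow (by positivity) hQlow hβ0.le
    rw [div_rpow hs0.le (by norm_num), ← rpow_mul (by linarith)] at h3
    have h4 : (2 : ℝ) ^ β ≤ 2 := by
      calc (2 : ℝ) ^ β ≤ 2 ^ (1 : ℝ) := rpow_le_rpow_of_exponent_le (by norm_num) hβ1
        _ = 2 := rpow_one _
    have h5 : (0 : ℝ) < (2 : ℝ) ^ β := by positivity
    rw [div_le_iff₀ h5] at h3
    have h6 : (T : ℝ) ^ (β / 2) = (T : ℝ) ^ (1 / 2 * β) := by congr 1; ring
    rw [h6]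
    calc _ ≤ (Q : ℝ) ^ β * 2 ^ β := h3
      _ ≤ (Q : ℝ) ^ β * 2 := mul_le_mul_of_nonneg_left h4 (by positivity)
      _ = _ := by ring
  have h3 : (E.card : ℝ) * (T : ℝ) ^ (β / 2) ≤ 24 * T := by
    calc (E.card : ℝ) * (T : ℝ) ^ (β / 2) ≤ E.card * (2 * (Q : ℝ) ^ β) :=
          mul_le_mul_of_nonneg_left h2 (Nat.cast_nonneg _)
      _ = 2 * (E.card * (Q : ℝ) ^ β) := by ring
      _ ≤ 24 * T := by linarith
  have h4 : (T : ℝ) = (T : ℝ) ^ ((1 + 1 / A + δ) / 2) * (T : ℝ) ^ (β / 2) := by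
    rw [← rpow_add (by linarith)]
    conv_lhs => rw [← rpow_one (T : ℝ)]
    congr 1
    rw [hβ]; ring
  have h5 : (0 : ℝ) < (T : ℝ) ^ (β / 2) := by positivity
  have h6 : (E.card : ℝ) ≤ 24 * (T : ℝ) ^ ((1 + 1 / A + δ) / 2) := by
    have : (E.card : ℝ) * (T : ℝ) ^ (β / 2) ≤
        (24 * (T : ℝ) ^ ((1 + 1 / A + δ) / 2)) * (T : ℝ) ^ (β / 2) := by
      calc _ ≤ 24 * (T : ℝ) := h3
        _ = _ := by rw [mul_assoc, ← h4]
    exact le_of_mul_le_mul_right this h5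
  calc (E.card : ℝ) ≤ 24 * (T : ℝ) ^ ((1 + 1 / A + δ) / 2) := h6
    _ ≤ _ := mul_le_mul_of_nonneg_right (by nlinarith [sq_nonneg (((Q0 + 1 : ℕ) : ℝ))]) (by linarith)

end Pool.Agent.H25WP
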