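import Pool.Agent.H25WP.CaseB

set_option autoImplicit false

/-! The upper half. -/

namespace Pool.Agent.H25WP

open Finset Real Polynomial Pool.Agent.TH869.EVF Pool.Agent.W57.SW

lemma poly_low (f : ℤ[X]) (hf : f ≠ 0) : ∃ m0 : ℕ, ∀ m : ℕ, m0 ≤ m →
    (m : ℝ) ^ f.natDegree / 2 ≤ ((f.eval (m : ℤ)).natAbs : ℝ) := by
  set P := f.map (Int.castRingHom ℝ) with hP
  have hinj : Function.Injective (Int.castRingHom ℝ) := RingHom.injective_int _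
  have hdeg : P.natDegree = f.natDegree := natDegree_map_eq_of_injective hinj f
  have hlead : P.leadingCoeff = (f.leadingCoeff : ℝ) := by
    rw [hP, leadingCoeff_map_of_injective hinj]; rfl
  have hlc : (1 : ℝ) ≤ |P.leadingCoeff| := by
    rw [hlead]
    have h1 : f.leadingCoeff ≠ 0 := leadingCoeff_ne_zero.mpr hf
    have h2 : 1 ≤ |f.leadingCoeff| := Int.one_le_abs h1
    exact_mod_cast h2
  have h1 := (Polynomial.isEquivalent_atTop_lead P).isLittleO.def (show (0 : ℝ) < 1 / 2 by norm_num)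
  obtain ⟨x0, hx0⟩ := Filter.eventually_atTop.mp (h1.and (Filter.eventually_ge_atTop 0))
  obtain ⟨m0, hm0⟩ := exists_nat_ge x0
  refine ⟨m0, fun m hm => ?_⟩
  have h2 := hx0 m (hm0.trans (by exact_mod_cast hm))
  obtain ⟨h3, h4⟩ := h2
  simp only [Pi.sub_apply, norm_eq_abs] at h3
  have h5 : |P.leadingCoeff * (m : ℝ) ^ P.natDegree| = |P.leadingCoeff| * (m : ℝ) ^ P.natDegree := by
    rw [abs_mul, abs_of_nonneg (by positivity : (0 : ℝ) ≤ (m : ℝ) ^ P.natDegree)]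
  have h6 : |P.leadingCoeff * (m : ℝ) ^ P.natDegree| - |eval (m : ℝ) P| ≤
      |eval (m : ℝ) P - P.leadingCoeff * (m : ℝ) ^ P.natDegree| := by
    rw [abs_sub_comm]; exact abs_sub_abs_le_abs_sub _ _
  have h7 : eval (m : ℝ) P = ((f.eval (m : ℤ) : ℤ) : ℝ) := by
    rw [hP]
    have := Polynomial.eval_natCast_map (Int.castRingHom ℝ) f m
    rw [this]; rfl
  have h8 : (((f.eval (m : ℤ)).natAbs : ℕ) : ℝ) = |((f.eval (m : ℤ) : ℤ) : ℝ)| := by
    rw [Nat.cast_natAbs]; push_cast; rfl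
  rw [h8, ← h7, ← hdeg]
  have h9 : (0 : ℝ) ≤ (m : ℝ) ^ P.natDegree := by positivity
  nlinarith

/-- the exponent inequality for the short cofactors -/
lemma expo (b δ d : ℝ) (hb : 1 / 2 ≤ b) (hb1 : b < 1) (hδ : 0 < δ) (hδ1 : δ ≤ 1 / 100) (hd : 2 ≤ d) :
    d * δ + 1 - d * ((b - δ) * (b - 2 * δ) / (1 + (b - δ))) ≤ 1 - b / 2 := by
  have h0 : 0 < 1 + (b - δ) := by linarith
  have h1 : (b / 4 + δ) * (1 + (b - δ)) ≤ (b - δ) * (b - 2 * δ) := by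
    nlinarith [mul_nonneg (by linarith : 0 ≤ b - 1 / 2) (by linarith : 0 ≤ b),
      mul_nonneg hδ.le (by linarith : 0 ≤ 1 - b), mul_nonneg hδ.le hδ.le]
  have h2 : b / 4 + δ ≤ (b - δ) * (b - 2 * δ) / (1 + (b - δ)) := by
    rw [le_div_iff₀ h0]; exact h1
  nlinarith

open Classical in
theorem top (A ε : ℝ) (f : ℤ[X]) (hA : 2 ≤ A) (hε : 0 < ε) (hd : 2 ≤ f.natDegree)
    (hf : ∀ (c : ℚ) (g : ℚ[X]), f.map (Int.castRingHom ℚ) ≠ C c * g ^ 2)
    (τ E : ℝ) (hτ0 : 0 ≤ τ) (hτ1 : τ ≤ 1)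
    (hE1 : (1 + 1 / A) / 2 * (1 - τ) + τ ≤ E) (hE2 : ((f.natDegree : ℝ) - τ) / A ≤ E) :
    ∃ K : ℝ, 0 < K ∧ ∀ M : ℕ, 1 ≤ M →
      (((Icc 1 M).filter (fun m : ℕ => M < 2 * m ∧ Bd A (f.eval (m : ℤ)).natAbs)).card : ℝ) ≤
        K * (M : ℝ) ^ (E + ε) := by
  have hA0 : 0 < A := by linarith
  have hA1 : 1 < A := by linarith
  have hAi0 : 0 < 1 / A := by positivity
  have hAi : 1 / A ≤ 1 / 2 := by
    rw [div_le_div_iff₀ hA0 (by norm_num)]; linarith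
  have hf0 : f ≠ 0 := by
    intro h
    exact hf 0 0 (by rw [h]; simp)
  obtain ⟨d, hdd⟩ : ∃ d : ℕ, d = f.natDegree := ⟨_, rfl⟩
  rw [← hdd] at hd hE2
  have hdR : (2 : ℝ) ≤ d := by exact_mod_cast hd
  obtain ⟨δ, hδ0, hδ1, hδ2⟩ : ∃ δ : ℝ, 0 < δ ∧ δ ≤ 1 / 100 ∧ 2 * d * δ ≤ ε := by
    refine ⟨min (1 / 100) (ε / (2 * d)), lt_min (by norm_num) (by positivity), min_le_left _ _, ?_⟩
    calc 2 * (d : ℝ) * min (1 / 100) (ε / (2 * d)) ≤ 2 * d * (ε / (2 * d)) :=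
          mul_le_mul_of_nonneg_left (min_le_right _ _) (by positivity)
      _ = ε := by field_simp
  have hδ3 : 4 * δ ≤ ε := by nlinarith
  have hE0 : (1 + 1 / A) / 2 ≤ E := by nlinarith
  obtain ⟨Ca, hCa, hcasea⟩ := case_a f hf A δ hA1 hδ0
  obtain ⟨Cb, hCb, hcaseb⟩ := case_b f A δ hA1 hδ0 (by linarith)
  obtain ⟨Cs, hCs, hcases⟩ := sieve_poly f hf A δ hA1 hδ0
  obtain ⟨θ, hθ⟩ : ∃ θ : ℝ, θ = (1 + 1 / A + δ) / 2 := ⟨_, rfl⟩
  rw [← hθ] at hcasea hcases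
  obtain ⟨σ, hσ⟩ : ∃ σ : ℝ, σ = 1 / A + 2 * δ := ⟨_, rfl⟩
  rw [← hσ] at hcaseb
  obtain ⟨γ, hγ⟩ : ∃ γ : ℝ, γ = 1 - 1 / A - δ := ⟨_, rfl⟩
  have hγ0 : 0 < γ := by rw [hγ]; linarith
  obtain ⟨CH, hCH, hCHf⟩ := poly_bound f
  rw [← hdd] at hCHf
  obtain ⟨m0, hm0⟩ := poly_low f hf0
  rw [← hdd] at hm0
  obtain ⟨H, hH2, hHC⟩ : ∃ H : ℕ, 2 ≤ H ∧ CH ≤ H :=
    ⟨max 2 ⌈CH⌉₊, le_max_left _ _, (Nat.le_ceil CH).trans (by exact_mod_cast le_max_right _ _)⟩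
  obtain ⟨N1, hN1⟩ := bad_squarefree
  obtain ⟨N2, hN23, hN2⟩ := bd_gcd A δ hA hδ0
  have hth := th_pos A
  have hth1 := th_lt_one hA0
  obtain ⟨H', hH'⟩ : ∃ H' : ℕ, H' = H * 2 ^ (d + 1) := ⟨_, rfl⟩
  have hev : ∀ᶠ M : ℝ in Filter.atTop, ((2 * m0 : ℕ) : ℝ) ≤ M ∧
      (((max N1 N2) * 2 ^ (d + 1) : ℕ) : ℝ) ≤ M ∧ (H' : ℝ) ≤ M ^ (1 - th A) ∧
      2 + |(f.leadingCoeff : ℝ)| ≤ log M :=
    (Filter.eventually_ge_atTop _).and ((Filter.eventually_ge_atTop _).and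
      (((tendsto_rpow_atTop (by linarith)).eventually (Filter.eventually_ge_atTop _)).and
      (tendsto_log_atTop.eventually (Filter.eventually_ge_atTop _))))
  obtain ⟨x0, hx0⟩ := Filter.eventually_atTop.mp hev
  obtain ⟨M0, hM0⟩ := exists_nat_ge x0
  obtain ⟨g, hg⟩ : ∃ g : ℝ, g = γ / (1 + γ) * (1 - σ) := ⟨_, rfl⟩
  obtain ⟨KK, hKK⟩ : ∃ KK : ℝ, KK = Cs + Ca + Cb * (H : ℝ) ^ δ * (H : ℝ) ^ (1 / A + δ) +
      Cb * (H : ℝ) ^ δ * ((2 : ℝ) ^ (d + 1)) ^ g := ⟨_, rfl⟩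
  have hH0 : (0 : ℝ) < H := by
    have : 0 < H := by omega
    exact_mod_cast this
  have hKK0 : 0 < KK := by rw [hKK]; positivity
  refine ⟨M0 + KK, by positivity, ?_⟩
  intro M hM
  have hM1 : (1 : ℝ) ≤ M := by exact_mod_cast hM
  have hMpos : (0 : ℝ) < M := by linarith
  have hEε : 0 ≤ E + ε := by linarith
  have hpow1 : (1 : ℝ) ≤ (M : ℝ) ^ (E + ε) := one_le_rpow hM1 hEε
  rcases lt_or_ge M M0 with hsmall | hlarge
  · have h1 : ((Icc 1 M).filter (fun m : ℕ => M < 2 * m ∧ Bd A (f.eval (m : ℤ)).natAbs)).card ≤ M := by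
      refine (card_filter_le _ _).trans ?_
      rw [Nat.card_Icc]; omega
    have h2 : (((Icc 1 M).filter (fun m : ℕ => M < 2 * m ∧ Bd A (f.eval (m : ℤ)).natAbs)).card : ℝ)
        ≤ M0 := by exact_mod_cast h1.trans hsmall.le
    calc _ ≤ (M0 : ℝ) := h2
      _ ≤ (M0 + KK) * 1 := by linarith
      _ ≤ _ := mul_le_mul_of_nonneg_left hpow1 (by positivity)
  obtain ⟨c1, c2, c3, c4⟩ := hx0 M (hM0.trans (by exact_mod_cast hlarge))
  obtain ⟨x, hx⟩ : ∃ x : ℕ, x = H * M ^ d := ⟨_, rfl⟩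
  have hxR : (x : ℝ) = H * (M : ℝ) ^ d := by rw [hx]; push_cast; ring
  have hMd : M ≤ M ^ d := Nat.le_self_pow (by omega) M
  have hMx2 : 2 * M ≤ x := by rw [hx]; exact Nat.mul_le_mul hH2 hMd
  have hMx : M ≤ x := by omega
  have hMxR : (M : ℝ) ≤ x := by exact_mod_cast hMx
  have hxpos : (0 : ℝ) < x := by linarith
  have hx1 : (1 : ℝ) ≤ x := by linarith
  have hlogM : log M ≤ log x := log_le_log hMpos hMxR
  have hlc0 : 0 ≤ |(f.leadingCoeff : ℝ)| := abs_nonneg _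
  have hlogx : 2 + |(f.leadingCoeff : ℝ)| ≤ log x := c4.trans hlogM
  have hLA : log (x : ℝ) ≤ (log x) ^ A := by
    have h1 : (log (x : ℝ)) ^ (1 : ℝ) ≤ (log (x : ℝ)) ^ A :=
      rpow_le_rpow_of_exponent_le (by linarith) (by linarith)
    rwa [rpow_one] at h1
  have hlog2 : 2 ≤ (log (x : ℝ)) ^ A := by linarith
  have hlcA : (|f.leadingCoeff| : ℝ) ≤ (log x) ^ A := by
    have : (|f.leadingCoeff| : ℝ) = |(f.leadingCoeff : ℝ)| := rfl
    linarith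
  -- the three sets
  obtain ⟨P, hP⟩ : ∃ P : ℕ, P = ⌊(M : ℝ) ^ τ⌋₊ := ⟨_, rfl⟩
  obtain ⟨k1, hk1⟩ : ∃ k1 : ℕ, k1 = ⌊(x : ℝ) / (M : ℝ) ^ τ⌋₊ := ⟨_, rfl⟩
  obtain ⟨k0, hk0⟩ : ∃ k0 : ℝ, k0 = ((M : ℝ) ^ d / 2 ^ (d + 1)) ^ (γ / (1 + γ)) := ⟨_, rfl⟩
  have hMτ1 : (M : ℝ) ^ τ ≤ M := by
    calc (M : ℝ) ^ τ ≤ (M : ℝ) ^ (1 : ℝ) := rpow_le_rpow_of_exponent_le hM1 hτ1
      _ = M := rpow_one _
  have hMτ0 : (1 : ℝ) ≤ (M : ℝ) ^ τ := one_le_rpow hM1 hτ0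
  have hMτpos : (0 : ℝ) < (M : ℝ) ^ τ := by linarith
  have hPM : P ≤ M := by
    rw [hP]
    have := Nat.floor_le_floor hMτ1
    rwa [Nat.floor_natCast] at this
  have hPR : (P : ℝ) ≤ (M : ℝ) ^ τ := by rw [hP]; exact Nat.floor_le hMτpos.le
  have hk11 : 1 ≤ k1 := by
    rw [hk1]
    apply Nat.le_floor
    rw [Nat.cast_one, one_le_div hMτpos]
    linarith
  have hk1x : k1 ≤ x := by
    rw [hk1]
    have h1 : (x : ℝ) / (M : ℝ) ^ τ ≤ x := div_le_self hxpos.le hMτ0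
    have := Nat.floor_le_floor h1
    rwa [Nat.floor_natCast] at this
  have hk1R : (k1 : ℝ) ≤ (x : ℝ) / (M : ℝ) ^ τ := by rw [hk1]; exact Nat.floor_le (by positivity)
  have hk0pos : 0 < k0 := by rw [hk0]; positivity
  obtain ⟨E1, hE1d⟩ : ∃ E1 : Finset ℕ, E1 = (Icc 1 M).filter
    (fun m : ℕ => (f.eval (m : ℤ)).natAbs ∈ Dq A x) := ⟨_, rfl⟩
  obtain ⟨E2, hE2d⟩ : ∃ E2 : Finset ℕ, E2 = (Icc 1 M).filter
    (fun m : ℕ => ∃ p k : ℕ, p.Prime ∧ p ≤ P ∧ (log x) ^ A < p ∧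
        (f.eval (m : ℤ)).natAbs = p * k ∧ k ∈ Dq A x) := ⟨_, rfl⟩
  obtain ⟨E3, hE3d⟩ : ∃ E3 : Finset ℕ, E3 = (Icc 1 M).filter
    (fun m : ℕ => ∃ k : ℕ, k ∈ Dq A x ∧ k0 ≤ k ∧ k ≤ k1 ∧
        (∀ p : ℕ, p.Prime → p ∣ k → ¬ (p : ℤ) ∣ f.leadingCoeff) ∧ (k : ℤ) ∣ f.eval (m : ℤ)) := ⟨_, rfl⟩
  have hcov : (Icc 1 M).filter (fun m : ℕ => M < 2 * m ∧ Bd A (f.eval (m : ℤ)).natAbs) ⊆
      E1 ∪ (E2 ∪ E3) := by
    intro m hm
    rw [mem_filter, mem_Icc] at hm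
    obtain ⟨⟨hm1, hmM⟩, hMm, hb⟩ := hm
    have hmR : (1 : ℝ) ≤ m := by exact_mod_cast hm1
    have hmMR : (m : ℝ) ≤ M := by exact_mod_cast hmM
    obtain ⟨n, hn⟩ : ∃ n : ℕ, n = (f.eval (m : ℤ)).natAbs := ⟨_, rfl⟩
    rw [← hn] at hb
    have hnR : (n : ℝ) = |((f.eval (m : ℤ) : ℤ) : ℝ)| := by
      rw [hn, Nat.cast_natAbs]; push_cast; rfl
    have hnx : n ≤ x := by
      have h1 : (n : ℝ) ≤ x := by
        rw [hnR, hxR]
        refine (hCHf m hm1).trans ?_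
        apply mul_le_mul hHC _ (by positivity) hH0.le
        exact pow_le_pow_left₀ (by linarith) hmMR d
      exact_mod_cast h1
    have hlow := hm0 m (by
      have : 2 * m0 ≤ M := by exact_mod_cast c1
      omega)
    rw [← hn] at hlow
    have hMn : (M : ℝ) ^ d / 2 ^ (d + 1) ≤ n := by
      have h1 : (M : ℝ) ≤ 2 * m := by exact_mod_cast hMm.le
      have h2 : (M : ℝ) ^ d ≤ 2 ^ d * (m : ℝ) ^ d := by
        rw [← mul_pow]; exact pow_le_pow_left₀ hMpos.le h1 d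
      rw [div_le_iff₀ (by positivity), pow_succ]
      have h3 : (0 : ℝ) < 2 ^ d := by positivity
      nlinarith
    have hNn : max N1 N2 ≤ n := by
      have h1 : (((max N1 N2) * 2 ^ (d + 1) : ℕ) : ℝ) ≤ (M : ℝ) ^ d := c2.trans (by exact_mod_cast hMd)
      have h2 : ((max N1 N2 : ℕ) : ℝ) ≤ (M : ℝ) ^ d / 2 ^ (d + 1) := by
        rw [le_div_iff₀ (by positivity)]
        push_cast at h1 ⊢
        exact h1
      exact_mod_cast h2.trans hMn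
    have hn3 : 3 ≤ n := hN23.trans ((le_max_right _ _).trans hNn)
    have hsq : Squarefree n := hN1 n ((le_max_left _ _).trans hNn) (hb.bad hA hn3)
    have hxn : (x : ℝ) ^ (th A) ≤ n := by
      have h1 : (x : ℝ) ≤ H' * n := by
        rw [hxR, hH']
        push_cast
        rw [div_le_iff₀ (by positivity)] at hMn
        have := mul_le_mul_of_nonneg_left hMn hH0.le
        linarith
      have h2 : (H' : ℝ) ≤ (x : ℝ) ^ (1 - th A) :=
        c3.trans (rpow_le_rpow hMpos.le hMxR (by linarith))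
      have h3 : (x : ℝ) = (x : ℝ) ^ (1 - th A) * (x : ℝ) ^ (th A) := by
        rw [← rpow_add hxpos]; simp
      have h4 : (0 : ℝ) < (x : ℝ) ^ (1 - th A) := by positivity
      have h5 : (x : ℝ) ^ (1 - th A) * (x : ℝ) ^ (th A) ≤ (x : ℝ) ^ (1 - th A) * n := by
        rw [← h3]
        exact h1.trans (mul_le_mul_of_nonneg_right h2 (Nat.cast_nonneg _))
      exact le_of_mul_le_mul_left h5 h4
    have hlog : (log (x : ℝ)) ^ A ≤ 2 * (log n) ^ A := by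
      have hlogn : th A * log x ≤ log n := by
        have := log_le_log (by positivity) hxn
        rwa [log_rpow hxpos] at this
      have h1 := rpow_le_rpow (mul_nonneg hth.le (by linarith) : 0 ≤ th A * log (x : ℝ)) hlogn hA0.le
      rw [mul_rpow hth.le (by linarith), th_rpow hA0] at h1
      linarith
    have hmI : m ∈ Icc 1 M := mem_Icc.mpr ⟨hm1, hmM⟩
    rw [mem_union, mem_union]
    rcases bd_struct hb hnx hlog hlog2 hsq with h | h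
    · left
      rw [hE1d, mem_filter, ← hn]
      exact ⟨hmI, h⟩
    · right
      obtain ⟨p, k, hp, hnk, hk⟩ := h
      have hplog : (log (x : ℝ)) ^ A < p := by
        have := bd_prime_large hb hp ⟨k, hnk⟩
        linarith
      rcases le_or_gt p P with hpP | hpP
      · left
        rw [hE2d, mem_filter]
        exact ⟨hmI, p, k, hp, hpP, hplog, by rw [← hn]; exact hnk, hk⟩
      · right
        rw [hE3d, mem_filter]
        refine ⟨hmI, k, hk, ?_, ?_, ?_, ?_⟩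
        · obtain ⟨g1, g2⟩ := hN2 n ((le_max_right _ _).trans hNn) hb p k hp hnk
          rw [← hγ] at g1
          have h1 : (Nat.gcd (p - 1) (k - 1) : ℝ) ≤ k := by
            have : Nat.gcd (p - 1) (k - 1) ≤ k - 1 := Nat.gcd_le_right _ (by omega)
            have : Nat.gcd (p - 1) (k - 1) ≤ k := by omega
            exact_mod_cast this
          have h2 : (p : ℝ) ^ γ ≤ k := g1.trans h1
          have hk0' : (0 : ℝ) < k := by exact_mod_cast (by omega : 0 < k)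
          have hp0' : (0 : ℝ) < p := by exact_mod_cast hp.pos
          have h3 : (n : ℝ) ^ (γ / (1 + γ)) ≤ k := by
            have h4 : (n : ℝ) ^ γ ≤ (k : ℝ) ^ (1 + γ) := by
              rw [hnk]
              push_cast
              rw [mul_rpow hp0'.le hk0'.le, rpow_add hk0', rpow_one]
              exact mul_le_mul_of_nonneg_right h2 (by positivity)
            have h5 := rpow_le_rpow (by positivity) h4 (by positivity : 0 ≤ 1 / (1 + γ))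
            rw [← rpow_mul (Nat.cast_nonneg n), ← rpow_mul hk0'.le] at h5
            have e1 : (1 + γ) * (1 / (1 + γ)) = 1 := by field_simp
            have e2 : γ * (1 / (1 + γ)) = γ / (1 + γ) := by field_simp
            rwa [e1, e2, rpow_one] at h5
          refine le_trans ?_ h3
          rw [hk0]
          exact rpow_le_rpow (by positivity) hMn (by positivity)
        · rw [hk1]
          apply Nat.le_floor
          rw [le_div_iff₀ hMτpos]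
          have h1 : (M : ℝ) ^ τ < p := by
            rw [hP] at hpP
            exact Nat.lt_of_floor_lt hpP
          have h2 : (p : ℝ) * k ≤ x := by
            have : p * k ≤ x := by rw [← hnk]; exact hnx
            exact_mod_cast this
          have h3 : (k : ℝ) * (M : ℝ) ^ τ ≤ k * p :=
            mul_le_mul_of_nonneg_left h1.le (Nat.cast_nonneg _)
          linarith
        · intro q hq hqk hqd
          have h1 := bd_prime_large hb hq (hqk.trans ⟨p, by rw [hnk]; ring⟩)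
          have h2 := Int.le_of_dvd (abs_pos.mpr (leadingCoeff_ne_zero.mpr hf0)) ((dvd_abs _ _).mpr hqd)
          have h3 : (q : ℝ) ≤ |(f.leadingCoeff : ℝ)| := by exact_mod_cast h2
          linarith
        · apply Int.natCast_dvd.mpr
          rw [← hn]
          exact ⟨p, by rw [hnk]; ring⟩
  -- bounds
  have hb1 : (E1.card : ℝ) ≤ Cs * (M : ℝ) ^ θ := by
    refine hcases x M hM hMx 1 ?_ 0 E1 (by rw [hE1d]; exact filter_subset _ _) ?_
    · intro ℓ hℓ h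
      rw [mem_opr] at hℓ
      exact hℓ.1.one_lt.ne' (Nat.dvd_one.mp h)
    · intro t ht
      rw [hE1d, mem_filter] at ht
      have h1 := mem_Dq.mp ht.2
      refine ⟨_, h1.2.1, h1.2.2.2, ?_⟩
      rw [one_mul]; simp
  have hb2 : (E2.card : ℝ) ≤ Ca * (M : ℝ) ^ θ * (P : ℝ) ^ (1 + δ - θ) := by
    refine hcasea x M P hM hPM hMx2 hlcA E2 (by rw [hE2d]; exact filter_subset _ _) ?_
    intro m hm
    rw [hE2d, mem_filter] at hm
    exact hm.2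
  have hb3 : (E3.card : ℝ) ≤ Cb * (x : ℝ) ^ δ * ((k1 : ℝ) ^ (1 / A + δ) + M * k0 ^ (-(1 - σ))) := by
    refine hcaseb x M k1 k0 hk11 hk1x hk0pos E3 (by rw [hE3d]; exact filter_subset _ _) ?_
    intro m hm
    rw [hE3d, mem_filter] at hm
    exact hm.2
  have hcardle : (((Icc 1 M).filter (fun m : ℕ => M < 2 * m ∧ Bd A (f.eval (m : ℤ)).natAbs)).card : ℝ)
      ≤ E1.card + (E2.card + E3.card) := by
    have h1 := (card_le_card hcov).trans (card_union_le _ _)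
    have h2 := card_union_le E2 E3
    have h3 : ((Icc 1 M).filter (fun m : ℕ => M < 2 * m ∧ Bd A (f.eval (m : ℤ)).natAbs)).card ≤
        E1.card + (E2.card + E3.card) := by omega
    exact_mod_cast h3
  -- exponents
  have hx1' : (M : ℝ) ^ θ ≤ (M : ℝ) ^ (E + ε) :=
    rpow_le_rpow_of_exponent_le hM1 (by rw [hθ]; linarith)
  have hx2' : (M : ℝ) ^ θ * (P : ℝ) ^ (1 + δ - θ) ≤ (M : ℝ) ^ (E + ε) := by
    have h0 : 0 ≤ 1 + δ - θ := by rw [hθ]; linarith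
    calc (M : ℝ) ^ θ * (P : ℝ) ^ (1 + δ - θ) ≤ (M : ℝ) ^ θ * ((M : ℝ) ^ τ) ^ (1 + δ - θ) :=
          mul_le_mul_of_nonneg_left (rpow_le_rpow (Nat.cast_nonneg _) hPR h0) (by positivity)
      _ = (M : ℝ) ^ (θ + τ * (1 + δ - θ)) := by
          rw [← rpow_mul hMpos.le, ← rpow_add hMpos]
      _ ≤ (M : ℝ) ^ (E + ε) := by
          apply rpow_le_rpow_of_exponent_le hM1
          have e : θ + τ * (1 + δ - θ) = (1 + 1 / A) / 2 * (1 - τ) + τ + δ / 2 * (1 - τ) + τ * δ := by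
            rw [hθ]; ring
          rw [e]
          nlinarith
  have hxδ : (x : ℝ) ^ δ = (H : ℝ) ^ δ * (M : ℝ) ^ (d * δ) := by
    rw [hxR, mul_rpow hH0.le (by positivity), ← rpow_natCast_mul hMpos.le]
  have hx3' : (x : ℝ) ^ δ * (k1 : ℝ) ^ (1 / A + δ) ≤
      (H : ℝ) ^ δ * (H : ℝ) ^ (1 / A + δ) * (M : ℝ) ^ (E + ε) := by
    have h1 : (k1 : ℝ) ≤ H * (M : ℝ) ^ ((d : ℝ) - τ) := by
      refine hk1R.trans (le_of_eq ?_)
      rw [hxR, rpow_sub hMpos, rpow_natCast]; ring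
    have h2 : (k1 : ℝ) ^ (1 / A + δ) ≤ (H : ℝ) ^ (1 / A + δ) * (M : ℝ) ^ (((d : ℝ) - τ) * (1 / A + δ)) := by
      refine (rpow_le_rpow (Nat.cast_nonneg _) h1 (by linarith)).trans (le_of_eq ?_)
      rw [mul_rpow hH0.le (by positivity), ← rpow_mul hMpos.le]
    have h3 : (M : ℝ) ^ (d * δ) * (M : ℝ) ^ (((d : ℝ) - τ) * (1 / A + δ)) ≤ (M : ℝ) ^ (E + ε) := by
      rw [← rpow_add hMpos]
      apply rpow_le_rpow_of_exponent_le hM1
      have e : d * δ + ((d : ℝ) - τ) * (1 / A + δ) = ((d : ℝ) - τ) / A + 2 * d * δ - τ * δ := by ring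
      rw [e]
      nlinarith
    calc (x : ℝ) ^ δ * (k1 : ℝ) ^ (1 / A + δ) ≤ ((H : ℝ) ^ δ * (M : ℝ) ^ (d * δ)) *
          ((H : ℝ) ^ (1 / A + δ) * (M : ℝ) ^ (((d : ℝ) - τ) * (1 / A + δ))) := by
          rw [hxδ]; exact mul_le_mul_of_nonneg_left h2 (by positivity)
      _ = (H : ℝ) ^ δ * (H : ℝ) ^ (1 / A + δ) *
          ((M : ℝ) ^ (d * δ) * (M : ℝ) ^ (((d : ℝ) - τ) * (1 / A + δ))) := by ring
      _ ≤ _ := mul_le_mul_of_nonneg_left h3 (by positivity)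
  have hσ1 : 0 ≤ 1 - σ := by rw [hσ]; linarith
  have hx4' : (x : ℝ) ^ δ * (M * k0 ^ (-(1 - σ))) ≤
      (H : ℝ) ^ δ * ((2 : ℝ) ^ (d + 1)) ^ g * (M : ℝ) ^ (E + ε) := by
    have h1 : k0 ^ (-(1 - σ)) = ((2 : ℝ) ^ (d + 1)) ^ g * (M : ℝ) ^ (-(d * g)) := by
      rw [hk0, ← rpow_mul (by positivity)]
      have e : γ / (1 + γ) * -(1 - σ) = -g := by rw [hg]; ring
      rw [e, div_rpow (by positivity) (by positivity), ← rpow_natCast_mul hMpos.le,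
        rpow_neg (by positivity : (0 : ℝ) ≤ 2 ^ (d + 1)), div_inv_eq_mul, mul_comm]
      congr 2; ring
    have h2 : (M : ℝ) ^ (d * δ) * ((M : ℝ) * (M : ℝ) ^ (-(d * g))) ≤ (M : ℝ) ^ (E + ε) := by
      have e0 : (M : ℝ) * (M : ℝ) ^ (-(d * g)) = (M : ℝ) ^ (1 + -(d * g)) := by
        rw [rpow_add hMpos, rpow_one]
      rw [e0, ← rpow_add hMpos]
      apply rpow_le_rpow_of_exponent_le hM1
      have h3 := expo (1 - 1 / A) δ d (by linarith) (by linarith) hδ0 hδ1 hdR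
      have e1 : d * ((1 - 1 / A - δ) * (1 - 1 / A - 2 * δ) / (1 + (1 - 1 / A - δ))) = d * g := by
        rw [hg, hγ, hσ]; ring
      rw [e1] at h3
      linarith
    calc (x : ℝ) ^ δ * (M * k0 ^ (-(1 - σ))) =
          (H : ℝ) ^ δ * ((2 : ℝ) ^ (d + 1)) ^ g *
            ((M : ℝ) ^ (d * δ) * ((M : ℝ) * (M : ℝ) ^ (-(d * g)))) := by rw [hxδ, h1]; ring
      _ ≤ _ := mul_le_mul_of_nonneg_left h2 (by positivity)
  have hM00 : (0 : ℝ) ≤ M0 := Nat.cast_nonneg _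
  calc (((Icc 1 M).filter (fun m : ℕ => M < 2 * m ∧ Bd A (f.eval (m : ℤ)).natAbs)).card : ℝ)
      ≤ E1.card + (E2.card + E3.card) := hcardle
    _ ≤ Cs * (M : ℝ) ^ θ + (Ca * (M : ℝ) ^ θ * (P : ℝ) ^ (1 + δ - θ) +
        Cb * (x : ℝ) ^ δ * ((k1 : ℝ) ^ (1 / A + δ) + M * k0 ^ (-(1 - σ)))) := by linarith
    _ = Cs * (M : ℝ) ^ θ + Ca * ((M : ℝ) ^ θ * (P : ℝ) ^ (1 + δ - θ)) +
        Cb * ((x : ℝ) ^ δ * (k1 : ℝ) ^ (1 / A + δ)) +
        Cb * ((x : ℝ) ^ δ * (M * k0 ^ (-(1 - σ)))) := by ring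
    _ ≤ Cs * (M : ℝ) ^ (E + ε) + Ca * (M : ℝ) ^ (E + ε) +
        Cb * ((H : ℝ) ^ δ * (H : ℝ) ^ (1 / A + δ) * (M : ℝ) ^ (E + ε)) +
        Cb * ((H : ℝ) ^ δ * ((2 : ℝ) ^ (d + 1)) ^ g * (M : ℝ) ^ (E + ε)) := by
        have g1 := mul_le_mul_of_nonneg_left hx1' (by linarith : 0 ≤ Cs)
        have g2 := mul_le_mul_of_nonneg_left hx2' (by linarith : 0 ≤ Ca)
        have g3 := mul_le_mul_of_nonneg_left hx3' (by linarith : 0 ≤ Cb)
        have g4 := mul_le_mul_of_nonneg_left hx4' (by linarith : 0 ≤ Cb)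
        linarith
    _ = KK * (M : ℝ) ^ (E + ε) := by rw [hKK]; ring
    _ ≤ (M0 + KK) * (M : ℝ) ^ (E + ε) := by
        apply mul_le_mul_of_nonneg_right _ (by linarith)
        linarith

end Pool.Agent.H25WP
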